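import Mathlib

/-!
# Row AM (90 lines). Amplification.

Recipe. `A := Matrix F F (ZMod 3)` (or `Module.End (ZMod 3) (F → ZMod 3)`), finite. `ρ x` = permutation matrix of left multiplication by `x` (`Equiv.Perm` matrices: `(Equiv.toPEquiv _).toMatrix`
or directly `fun a b => if a = x * b then 1 else 0`; multiplicative by `Finset.sum_ite_eq`). A set `H` of representatives: `F` finite, take a linear order or an injection `ι : F → ℕ`
(`Finite.equivFin`): `H = {x | ι x < ι (g * x)}`. As `g * (g * x) = x` and `g * x ≠ x`: `g * x ∈ H ↔ x ∉ H`. `p := diagonal of the indicator of H`, `p' := 1 - p` = diagonal of the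
indicator of the complement. `p * p = p`, `p' * p' = p'`, `p * ρ g * p = 0` (the entry at `(a, b)` is non-zero only if `a ∈ H`, `b ∈ H`, `a = g * b`), `p' * ρ g * p' = 0`. So the
sum is `- p - p' + 1 = 0`. `(2 : A) ≠ 0`: look at a diagonal entry, `(2 : ZMod 3) ≠ 0`.
-/

set_option autoImplicit false

namespace Pool.Agent.Lib.SMO

theorem amplify {F : Type} [Group F] [Finite F] (g : F) (h2 : g * g = 1) (h1 : g ≠ 1) :
    ∃ (A : Type) (_ : Ring A) (_ : Finite A) (ρ : F →* A) (p p' : A), (2 : A) ≠ 0 ∧
      p * ρ g * p - p * p + (p' * ρ g * p' - p' * p') + 1 = 0 := by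
  classical
  have hfin : Fintype F := Fintype.ofFinite F
  obtain ⟨n, ⟨e⟩⟩ := Finite.exists_equiv_fin F
  let H : F → Prop := fun x => e x < e (g * x)
  have hH : ∀ x, H (g * x) ↔ ¬ H x := by
    intro x
    show e (g * x) < e (g * (g * x)) ↔ ¬ e x < e (g * x)
    rw [← mul_assoc, h2, one_mul, not_lt]
    have hne : e (g * x) ≠ e x := by
      intro h
      have h3 := e.injective h
      exact h1 (mul_eq_right.1 h3)
    constructor
    · intro h; exact h.le
    · intro h; exact lt_of_le_of_ne h hne
  let ρ : F →* Matrix F F (ZMod 3) :=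
    { toFun := fun x => Matrix.of fun a b => if a = x * b then 1 else 0
      map_one' := by
        ext a b
        rw [Matrix.of_apply, Matrix.one_apply, one_mul]
      map_mul' := by
        intro x y
        ext a b
        rw [Matrix.mul_apply, Matrix.of_apply]
        simp only [Matrix.of_apply]
        rw [Finset.sum_eq_single (y * b)]
        · simp [mul_assoc]
        · intro c _ hc
          simp [hc]
        · intro h
          exact absurd (Finset.mem_univ _) h }
  have hρ : ∀ x a b, ρ x a b = if a = x * b then 1 else 0 := fun _ _ _ => rfl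
  refine ⟨Matrix F F (ZMod 3), inferInstance, inferInstance, ρ,
    Matrix.diagonal (fun a => if H a then 1 else 0),
    Matrix.diagonal (fun a => if H a then 0 else 1), ?_, ?_⟩
  · intro h
    have h3 := congrFun (congrFun h g) g
    have h4 : (2 : Matrix F F (ZMod 3)) g g = 2 := by
      have : (2 : Matrix F F (ZMod 3)) = 1 + 1 := by norm_num
      rw [this, Matrix.add_apply, Matrix.one_apply_eq]
      norm_num
    rw [h4, Matrix.zero_apply] at h3
    exact absurd h3 (by decide)
  · ext a b
    rw [Matrix.diagonal_mul_diagonal, Matrix.diagonal_mul_diagonal, Matrix.add_apply,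
      Matrix.add_apply, Matrix.sub_apply, Matrix.sub_apply, Matrix.mul_diagonal,
      Matrix.mul_diagonal, Matrix.diagonal_mul, Matrix.diagonal_mul, hρ, Matrix.diagonal_apply,
      Matrix.diagonal_apply, Matrix.one_apply, Matrix.zero_apply]
    by_cases hab : a = b
    · subst hab
      have h3 : a ≠ g * a := by
        intro h
        exact h1 (mul_eq_right.1 h.symm)
      by_cases ha : H a <;> simp [ha, h3]
    · by_cases hg : a = g * b
      · have h3 := hH b
        rw [← hg] at h3
        by_cases hb : H b
        · have ha : ¬ H a := fun h => (h3.1 h) hb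
          simp [hab, ha, hb]
        · have ha : H a := h3.2 hb
          simp [hab, ha, hb]
      · simp [hab, hg]

end Pool.Agent.Lib.SMO
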