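import Pool.Agent.Lib.SMO.Defs

/-!
# Row B1. Simply connected and not spin.

From a collapse of the central extension: the fundamental group is trivial and there is no spin structure.
-/

set_option autoImplicit false

namespace Pool.Agent.Lib.SMO

/-- The value of a word in a presented group, at the images of the generators. -/
theorem evw_of (R : Set (FreeGroup ℕ)) (w : Word) :
    evw (fun i => (PresentedGroup.of i : PresentedGroup R)) w = PresentedGroup.mk R (toFree w) := by
  unfold evw toFree
  rw [map_list_prod, List.map_map]
  congr 1
  apply List.map_congr_left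
  intro a _
  simp only [Function.comp_apply]
  split_ifs
  · rfl
  · rw [map_inv]
    rfl

/-- The value of a word in the group of order two is the sum of the cochain on the edges. -/
theorem evw_zmod (c : Unit × ℕ → ZMod 2) (w : Word) (s : Unit) :
    evw (fun i => Multiplicative.ofAdd (c ((), i))) w =
      Multiplicative.ofAdd (((edges (fun _ => Equiv.refl Unit) w s).map fun e => c e.1).sum) := by
  induction w generalizing s with
  | nil => simp [evw, edges]
  | cons a w ih =>
    obtain ⟨i, b⟩ := a
    have hev : evw (fun i => Multiplicative.ofAdd (c ((), i))) ((i, b) :: w) =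
        (if b then Multiplicative.ofAdd (c ((), i)) else (Multiplicative.ofAdd (c ((), i)))⁻¹) *
          evw (fun i => Multiplicative.ofAdd (c ((), i))) w := by
      simp [evw]
    rw [hev]
    have hneg : ∀ x : ZMod 2, -x = x := by decide
    cases b with
    | true =>
      rw [ih ((Equiv.refl Unit) s)]
      simp [edges, ofAdd_add]
    | false =>
      rw [ih ((Equiv.refl Unit).symm s)]
      simp only [edges, List.map_cons, List.sum_cons, ofAdd_add, Bool.false_eq_true, if_false]
      congr 1
      rw [← ofAdd_neg, hneg]

theorem collapse_top (D : Data)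
    (h : ∀ (G : Type) [Group G] (f : ℕ → G) (z : G), Sat D f z → z = 1 ∧ ∀ i < D.1, f i = 1) :
    SimplyConnectedNonspin D := by
  constructor
  · have hS : Sat D (fun i => (PresentedGroup.of i : Pi1 D)) 1 := by
      refine ⟨by simp, fun i _ => Commute.one_left _, ?_⟩
      intro r hr
      rw [evw_of]
      have h1 : PresentedGroup.mk ({y | ∃ i, D.1 ≤ i ∧ y = FreeGroup.of i} ∪
          {y | ∃ r ∈ D.2.1, y = toFree r.1}) (toFree r.1) = 1 :=
        PresentedGroup.one_of_mem (Or.inr ⟨r, hr, rfl⟩)
      rw [h1]
      simp
    have hgen : ∀ i, (PresentedGroup.of i : Pi1 D) = 1 := by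
      intro i
      by_cases hi : i < D.1
      · exact (h (Pi1 D) _ 1 hS).2 i hi
      · exact PresentedGroup.one_of_mem (Or.inl ⟨i, not_lt.mp hi, rfl⟩)
    have hid : MonoidHom.id (Pi1 D) = 1 := by
      apply PresentedGroup.ext
      intro i
      simpa using hgen i
    refine ⟨fun a b => ?_⟩
    have ha : a = 1 := by
      have := DFunLike.congr_fun hid a
      simpa using this
    have hb : b = 1 := by
      have := DFunLike.congr_fun hid b
      simpa using this
    rw [ha, hb]
  · rintro ⟨c, hc⟩
    have hS : Sat D (fun i => Multiplicative.ofAdd (c ((), i))) (Multiplicative.ofAdd (1 : ZMod 2)) := by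
      refine ⟨by decide, fun i _ => Commute.all _ _, ?_⟩
      intro r hr
      rw [evw_zmod c r.1 (), hc r hr ()]
      split_ifs
      · rfl
      · rfl
    have := (h _ _ _ hS).1
    revert this
    decide

end Pool.Agent.Lib.SMO
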