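import Pool.Agent.Lib.SMO.Defs

/-!
# Row B2 (120 lines). The finite spin covering.

Recipe. Let `F'` be the subgroup generated by `z` and the `f i`, `i < D.1` (or replace `F` by it: `f' i = ⟨f i, _⟩` for `i < D.1` and `1` for `i ≥ D.1`; by `Wf` the relations still hold).
`z` is central in `F'`; `T := F' ⧸ zpowers z` (a group, or the set of left cosets), `ρ i` = right multiplication by `f' i`: well defined because `z` is central.
`stop ρ w s = s * evw f' w` (induction on `w`), so `closed` holds as `evw f' r ∈ {1, z}`; `conn`: every element of `F'` is `evw f' w` times a power of `z` (closure induction).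
`Spin`: choose a section `σ : T → F'` (`Quotient.out`). `σ t * f' i = σ (ρ i t) * z ^ c (t, i)` with `c (t, i) ∈ ZMod 2` (`c = 0` or `1`; `z ^ (c.val)`), so
`σ s * evw f' w = σ (stop ρ w s) * z ^ (sum of the c over edges ρ w s)` by induction on `w` (for an inverse letter use `z⁻¹ = z`). For a relator `r`: `stop = s`, hence
`z ^ (sum) = evw f' r = if r.2 then z else 1`, and `z ≠ 1` gives the sum in `ZMod 2`.
-/

set_option autoImplicit false

namespace Pool.Agent.Lib.SMO

private theorem b2_cons {G : Type*} [Group G] (f : ℕ → G) (a : ℕ × Bool) (w : Word) :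
    evw f (a :: w) = (if a.2 then f a.1 else (f a.1)⁻¹) * evw f w := by
  simp [evw]

private theorem b2_append {G : Type*} [Group G] (f : ℕ → G) (v w : Word) :
    evw f (v ++ w) = evw f v * evw f w := by
  simp [evw]

private theorem b2_map {G H : Type*} [Group G] [Group H] (φ : G →* H) (f : ℕ → G) (w : Word) :
    φ (evw f w) = evw (fun i => φ (f i)) w := by
  induction w with
  | nil => simp [evw]
  | cons a w ih =>
    rw [b2_cons, b2_cons, map_mul, ih]
    congr 1
    split_ifs <;> simp

private theorem b2_congr {G : Type*} [Group G] {f g : ℕ → G} {w : Word}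
    (h : ∀ a ∈ w, f a.1 = g a.1) : evw f w = evw g w := by
  unfold evw
  congr 1
  apply List.map_congr_left
  intro a ha
  rw [h a ha]

private theorem b2_inv {G : Type*} [Group G] (f : ℕ → G) (n : ℕ) (w : Word)
    (hw : ∀ a ∈ w, a.1 < n) :
    ∃ v : Word, (∀ a ∈ v, a.1 < n) ∧ evw f v = (evw f w)⁻¹ := by
  induction w with
  | nil => exact ⟨[], by simp, by simp [evw]⟩
  | cons a w ih =>
    obtain ⟨v, hv, hv2⟩ := ih (fun b hb => hw b (List.mem_cons_of_mem _ hb))
    refine ⟨v ++ [(a.1, !a.2)], ?_, ?_⟩
    · intro b hb
      rcases List.mem_append.mp hb with hb | hb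
      · exact hv b hb
      · rw [List.mem_singleton] at hb
        rw [hb]
        exact hw a List.mem_cons_self
    · rw [b2_append, hv2, b2_cons f a w, mul_inv_rev]
      congr 1
      obtain ⟨i, b⟩ := a
      cases b <;> simp [evw]

private theorem b2_stop {G : Type} [Group G] (g : ℕ → G) (w : Word) (s : G) :
    stop (fun i => Equiv.mulRight (g i)) w s = s * evw g w := by
  induction w generalizing s with
  | nil => simp [stop, evw]
  | cons a w ih =>
    obtain ⟨i, b⟩ := a
    cases b
    · rw [stop, ih, b2_cons]
      simp [mul_assoc]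
    · rw [stop, ih, b2_cons]
      simp [mul_assoc]

private theorem b2_two {G : Type*} [Group G] {z x : G} (hz2 : z * z = 1)
    (hx : x ∈ Subgroup.zpowers z) : x = 1 ∨ x = z := by
  obtain ⟨k, rfl⟩ := Subgroup.mem_zpowers_iff.mp hx
  rcases Int.even_or_odd' k with ⟨m, rfl | rfl⟩
  · left
    rw [zpow_mul, zpow_two, hz2, one_zpow]
  · right
    rw [zpow_add, zpow_mul, zpow_two, hz2, one_zpow, one_mul, zpow_one]

/-- `z` to the power `c`. -/
private def b2_zz {G : Type*} [Group G] (z : G) (c : ZMod 2) : G := if c = 0 then 1 else z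

private theorem b2_zz_add {G : Type*} [Group G] {z : G} (hz2 : z * z = 1) (a b : ZMod 2) :
    b2_zz z (a + b) = b2_zz z a * b2_zz z b := by
  have h : ∀ c : ZMod 2, c = 0 ∨ c = 1 := by decide
  have h10 : (1 : ZMod 2) ≠ 0 := by decide
  have h11 : (1 : ZMod 2) + 1 = 0 := by decide
  rcases h a with rfl | rfl <;> rcases h b with rfl | rfl <;>
    simp [b2_zz, h11, hz2]

private theorem b2_core (D : Data) {G : Type} [Group G] [Finite G] (g : ℕ → G) (z : G)
    (hz2 : z * z = 1) (hz : z ≠ 1) (hc : ∀ x : G, Commute z x)
    (hrel : ∀ r ∈ D.2.1, evw g r.1 = if r.2 then z else 1)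
    (hgen : ∀ x : G, ∃ w : Word, (∀ a ∈ w, a.1 < D.1) ∧ (x = evw g w ∨ x = evw g w * z)) :
    ∃ (T : Type) (_ : Fintype T) (ρ : ℕ → Equiv.Perm T), IsCover D ρ ∧ Spin D ρ := by
  classical
  have hN : (Subgroup.zpowers z).Normal := by
    constructor
    intro n hn x
    obtain ⟨k, rfl⟩ := Subgroup.mem_zpowers_iff.mp hn
    have h1 : x * z ^ k * x⁻¹ = z ^ k := by
      rw [← ((hc x).zpow_left k).eq]
      group
    rw [h1]
    exact hn
  let Q := G ⧸ Subgroup.zpowers z
  let π : G →* Q := QuotientGroup.mk' (Subgroup.zpowers z)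
  have hπz : π z = 1 := by
    change (QuotientGroup.mk z : Q) = 1
    rw [QuotientGroup.eq_one_iff]
    exact Subgroup.mem_zpowers z
  have hker : ∀ x y : G, π x = π y → y = x ∨ y = x * z := by
    intro x y hxy
    have h1 : x⁻¹ * y ∈ Subgroup.zpowers z := QuotientGroup.eq.mp hxy
    rcases b2_two hz2 h1 with h2 | h2
    · left
      rw [inv_mul_eq_one] at h2
      exact h2.symm
    · right
      rw [inv_mul_eq_iff_eq_mul] at h2
      exact h2
  have hsurj : Function.Surjective π := QuotientGroup.mk'_surjective _
  let σ : Q → G := fun q => Classical.choose (hsurj q)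
  have hσ : ∀ q, π (σ q) = q := fun q => Classical.choose_spec (hsurj q)
  let ρ : ℕ → Equiv.Perm Q := fun i => Equiv.mulRight (π (g i))
  have hstop : ∀ w s, stop ρ w s = s * π (evw g w) := by
    intro w s
    rw [b2_map]
    exact b2_stop _ w s
  have hπrel : ∀ r ∈ D.2.1, π (evw g r.1) = 1 := by
    intro r hr
    rw [hrel r hr]
    split_ifs
    · exact hπz
    · exact map_one π
  have hclosed : ∀ r ∈ D.2.1, ∀ s, stop ρ r.1 s = s := by
    intro r hr s
    rw [hstop, hπrel r hr, mul_one]
  refine ⟨Q, Fintype.ofFinite Q, ρ, ⟨hclosed, ⟨1⟩, ?_⟩, ?_⟩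
  · intro s t
    obtain ⟨x, hx⟩ := hsurj (s⁻¹ * t)
    obtain ⟨w, hw, hw2⟩ := hgen x
    refine ⟨w, hw, ?_⟩
    rw [hstop]
    have h1 : π x = π (evw g w) := by
      rcases hw2 with h | h
      · rw [h]
      · rw [h, map_mul, hπz, mul_one]
    rw [← h1, hx, mul_inv_cancel_left]
  · have hzz : ∀ (c : ZMod 2) (x : G), Commute (b2_zz z c) x := by
      intro c x
      unfold b2_zz
      split_ifs
      · exact Commute.one_left x
      · exact hc x
    have hzz2 : ∀ c : ZMod 2, b2_zz z c * b2_zz z c = 1 := by
      intro c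
      unfold b2_zz
      split_ifs
      · exact mul_one 1
      · exact hz2
    let c : Q × ℕ → ZMod 2 := fun e => if σ e.1 * g e.2 = σ (e.1 * π (g e.2)) then 0 else 1
    have hcc : ∀ (t : Q) (i : ℕ), σ t * g i = σ (ρ i t) * b2_zz z (c (t, i)) := by
      intro t i
      have h1 : π (σ (t * π (g i))) = π (σ t * g i) := by
        rw [hσ, map_mul, hσ]
      change σ t * g i = σ (t * π (g i)) * b2_zz z
        (if σ t * g i = σ (t * π (g i)) then 0 else 1)
      by_cases h2 : σ t * g i = σ (t * π (g i))
      · rw [if_pos h2]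
        unfold b2_zz
        rw [if_pos rfl, mul_one]
        exact h2
      · rw [if_neg h2]
        unfold b2_zz
        rw [if_neg (by decide)]
        rcases hker _ _ h1 with h3 | h3
        · exact absurd h3 h2
        · exact h3
    have hmain : ∀ (w : Word) (s : Q), σ s * evw g w =
        σ (stop ρ w s) * b2_zz z (((edges ρ w s).map fun e => c e.1).sum) := by
      intro w
      induction w with
      | nil =>
        intro s
        simp [evw, stop, edges, b2_zz]
      | cons a w ih =>
        intro s
        obtain ⟨i, b⟩ := a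
        cases b
        · rw [b2_cons, edges, stop, List.map_cons, List.sum_cons, b2_zz_add hz2]
          have h1 := hcc ((ρ i).symm s) i
          rw [Equiv.apply_symm_apply] at h1
          have h2 : σ s * (g i)⁻¹ = σ ((ρ i).symm s) * b2_zz z (c ((ρ i).symm s, i)) := by
            rw [mul_inv_eq_iff_eq_mul, mul_assoc, (hzz _ (g i)).eq, ← mul_assoc, h1, mul_assoc,
              hzz2, mul_one]
          have h3 := ih ((ρ i).symm s)
          simp only [Bool.false_eq_true, if_false]
          calc σ s * ((g i)⁻¹ * evw g w) = σ s * (g i)⁻¹ * evw g w := by rw [mul_assoc]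
            _ = σ ((ρ i).symm s) * evw g w * b2_zz z (c ((ρ i).symm s, i)) := by
                rw [h2, mul_assoc, (hzz _ (evw g w)).eq, mul_assoc]
            _ = _ := by
                rw [h3, mul_assoc, (hzz (c ((ρ i).symm s, i)) _).eq]
        · rw [b2_cons, edges, stop, List.map_cons, List.sum_cons, b2_zz_add hz2]
          have h2 := hcc s i
          have h3 := ih (ρ i s)
          simp only [if_true]
          calc σ s * (g i * evw g w) = σ s * g i * evw g w := by rw [mul_assoc]
            _ = σ (ρ i s) * evw g w * b2_zz z (c (s, i)) := by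
                rw [h2, mul_assoc, (hzz _ (evw g w)).eq, mul_assoc]
            _ = _ := by
                rw [h3, mul_assoc, (hzz (c (s, i)) _).eq]
    refine ⟨c, fun r hr s => ?_⟩
    have h1 := hmain r.1 s
    rw [hclosed r hr s, hrel r hr] at h1
    have h2 := mul_left_cancel h1
    have h01 : ∀ c : ZMod 2, c = 0 ∨ c = 1 := by decide
    generalize ((edges ρ r.1 s).map fun e => c e.1).sum = a at h2 ⊢
    rcases h01 a with rfl | rfl
    · by_cases h3 : r.2 = true
      · rw [if_pos h3] at h2
        exact absurd h2 hz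
      · rw [if_neg h3]
    · by_cases h3 : r.2 = true
      · rw [if_pos h3]
      · rw [if_neg h3] at h2
        exfalso
        apply hz
        unfold b2_zz at h2
        rw [if_neg (by decide)] at h2
        exact h2.symm

theorem cover_top (D : Data) (hD : Wf D) {F : Type} [Group F] [Finite F] (f : ℕ → F) (z : F)
    (h : Sat D f z) (hz : z ≠ 1) :
    ∃ (T : Type) (_ : Fintype T) (ρ : ℕ → Equiv.Perm T), IsCover D ρ ∧ Spin D ρ := by
  classical
  let g : ℕ → F := fun i => if i < D.1 then f i else 1
  have hgz : ∀ i, Commute z (g i) := by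
    intro i
    by_cases hi : i < D.1
    · have : g i = f i := if_pos hi
      rw [this]
      exact h.cen i hi
    · have : g i = 1 := if_neg hi
      rw [this]
      exact Commute.one_right z
  let S : Set F := insert z (Set.range g)
  let H : Subgroup F := Subgroup.closure S
  have hzH : z ∈ H := Subgroup.subset_closure (Set.mem_insert _ _)
  have hgH : ∀ i, g i ∈ H := fun i => Subgroup.subset_closure (Set.mem_insert_of_mem _ ⟨i, rfl⟩)
  have hcH : ∀ x ∈ H, Commute z x := by
    intro x hx
    refine Subgroup.closure_induction (p := fun x _ => Commute z x) ?_ ?_ ?_ ?_ hx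
    · intro y hy
      rcases Set.mem_insert_iff.mp hy with rfl | ⟨i, rfl⟩
      · exact Commute.refl _
      · exact hgz i
    · exact Commute.one_right z
    · intro a b _ _ ha hb
      exact ha.mul_right hb
    · intro a _ ha
      exact ha.inv_right
  let g' : ℕ → H := fun i => ⟨g i, hgH i⟩
  let z' : H := ⟨z, hzH⟩
  have hval : ∀ w, ((evw g' w : H) : F) = evw g w := fun w => b2_map H.subtype g' w
  refine b2_core D (G := H) g' z' (Subtype.ext h.sq) (fun h0 => hz (congrArg Subtype.val h0))
    (fun x => Subtype.ext (hcH x.1 x.2).eq) ?_ ?_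
  · intro r hr
    apply Subtype.ext
    rw [hval]
    have h1 : evw g r.1 = evw f r.1 := b2_congr (fun a ha => if_pos (hD r hr a ha))
    rw [h1, h.rel r hr]
    split_ifs <;> rfl
  · have hp : ∀ x ∈ H, ∃ w : Word, (∀ a ∈ w, a.1 < D.1) ∧ (x = evw g w ∨ x = evw g w * z) := by
      intro x hx
      refine Subgroup.closure_induction (p := fun x _ => ∃ w : Word, (∀ a ∈ w, a.1 < D.1) ∧
        (x = evw g w ∨ x = evw g w * z)) ?_ ?_ ?_ ?_ hx
      · intro y hy
        rcases Set.mem_insert_iff.mp hy with rfl | ⟨i, rfl⟩
        · exact ⟨[], by simp, Or.inr (by simp [evw])⟩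
        · by_cases hi : i < D.1
          · refine ⟨[(i, true)], ?_, Or.inl (by simp [evw])⟩
            intro a ha
            rw [List.mem_singleton] at ha
            rw [ha]
            exact hi
          · exact ⟨[], by simp, Or.inl (by simp [evw, g, hi])⟩
      · exact ⟨[], by simp, Or.inl (by simp [evw])⟩
      · rintro a b ha' hb' ⟨v, hv, hv2⟩ ⟨w, hw, hw2⟩
        refine ⟨v ++ w, ?_, ?_⟩
        · intro e he
          rcases List.mem_append.mp he with he | he
          · exact hv e he
          · exact hw e he
        · rw [b2_append]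
          have hcw : ∀ w' : Word, z * evw g w' = evw g w' * z := by
            intro w'
            rw [← hval w']
            exact (hcH _ (evw g' w').2).eq
          rcases hv2 with rfl | rfl <;> rcases hw2 with rfl | rfl
          · left; rfl
          · right; rw [mul_assoc]
          · right; rw [mul_assoc, hcw, mul_assoc]
          · left
            rw [mul_assoc, ← mul_assoc z, hcw, mul_assoc, h.sq, mul_one]
      · rintro a ha' ⟨v, hv, hv2⟩
        obtain ⟨w, hw, hw2⟩ := b2_inv g D.1 v hv
        refine ⟨w, hw, ?_⟩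
        have hzi : z⁻¹ = z := inv_eq_of_mul_eq_one_left h.sq
        have hcw : ∀ w' : Word, z * evw g w' = evw g w' * z := by
          intro w'
          rw [← hval w']
          exact (hcH _ (evw g' w').2).eq
        rcases hv2 with rfl | rfl
        · left; exact hw2.symm
        · right
          rw [mul_inv_rev, hzi, ← hw2, hcw]
    intro x
    obtain ⟨w, hw, hw2⟩ := hp x.1 x.2
    refine ⟨w, hw, ?_⟩
    rcases hw2 with h1 | h1
    · left
      apply Subtype.ext
      rw [hval]
      exact h1
    · right
      apply Subtype.ext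
      change x.1 = (evw g' w : H).1 * z
      rw [hval]
      exact h1

end Pool.Agent.Lib.SMO
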