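import Pool.Agent.Lib.SMO.Defs

/-!
# Row B3 (30 lines). The Betti number of a finite covering.

Recipe. `finrank (ker) ≤ finrank (Fin k × T → ℚ) = k * card T` (`Submodule.finrank_le`, `Module.finrank_fintype_fun_eq_card`), so with `N = card T > 0`, `k > 0`:
`b2 ≤ 2 k N + 16 k N = 18 k N < 20 k N = 10 / 8 * (8 * (2 k) * N)`.
-/

set_option autoImplicit false

namespace Pool.Agent.Lib.SMO

theorem b2_lt (D : Data) {T : Type} [Fintype T] [Nonempty T] (ρ : ℕ → Equiv.Perm T)
    (h0 : D.2.1 ≠ []) (h : D.2.2 = 2 * D.2.1.length) : (b2 D ρ : ℚ) < 10 / 8 * sig D T := by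
  have hk : 0 < D.2.1.length := List.length_pos_of_ne_nil h0
  have hN : 0 < Fintype.card T := Fintype.card_pos
  have h1 : Module.finrank ℚ (LinearMap.ker (bd D ρ)) ≤ D.2.1.length * Fintype.card T := by
    refine (Submodule.finrank_le _).trans (le_of_eq ?_)
    rw [Module.finrank_fintype_fun_eq_card, Fintype.card_prod, Fintype.card_fin]
  have h2 : b2 D ρ ≤ 18 * (D.2.1.length * Fintype.card T) := by
    have e : 8 * D.2.2 * Fintype.card T = 16 * (D.2.1.length * Fintype.card T) := by
      rw [h]; ring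
    unfold b2
    rw [e]
    omega
  have h3 : sig D T = 16 * (D.2.1.length * Fintype.card T) := by
    unfold sig
    rw [h]; ring
  have h4 : 0 < D.2.1.length * Fintype.card T := Nat.mul_pos hk hN
  have h5 : (b2 D ρ : ℚ) ≤ 18 * ((D.2.1.length * Fintype.card T : ℕ) : ℚ) := by
    exact_mod_cast h2
  have h6 : (0 : ℚ) < ((D.2.1.length * Fintype.card T : ℕ) : ℚ) := by
    exact_mod_cast h4
  rw [h3]
  push_cast at h5 h6 ⊢
  linarith

end Pool.Agent.Lib.SMO
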