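import Pool.Agent.Lib.SMO.SDefs

/-!
# Row CA. The fixed relators are finitely many.
-/

set_option autoImplicit false

namespace Pool.Agent.Lib.SMO

private theorem ca_st {β : Type} [Finite β] : {w : GW (Gen β) | StRel β w}.Finite := by
  have h1 := Set.finite_range (fun p : Fin 6 × Option β => ([((p.1, p.1, p.2), true)] : GW (Gen β)))
  have h2 := Set.finite_range (fun p : (Fin 6 × Fin 6 × Option β) × (Fin 6 × Fin 6 × Option β) =>
    (wcom [(p.1, true)] [(p.2, true)] : GW (Gen β)))
  have h3 := Set.finite_range (fun p : Fin 6 × Fin 6 × Fin 6 × Option β =>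
    (wcom [((p.1, p.2.1, none), true)] [((p.2.1, p.2.2.1, p.2.2.2), true)] ++
      [((p.1, p.2.2.1, p.2.2.2), false)] : GW (Gen β)))
  have h4 := Set.finite_range (fun p : Fin 6 × Fin 6 × Fin 6 × Option β =>
    (wcom [((p.1, p.2.1, p.2.2.2), true)] [((p.2.1, p.2.2.1, none), true)] ++
      [((p.1, p.2.2.1, p.2.2.2), false)] : GW (Gen β)))
  refine (((h1.union h2).union h3).union h4).subset ?_
  rintro w hw
  induction hw with
  | junk i s => exact Or.inl (Or.inl (Or.inl ⟨(i, s), rfl⟩))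
  | comm i j k l s t _ _ => exact Or.inl (Or.inl (Or.inr ⟨((i, j, s), (k, l, t)), rfl⟩))
  | unitl i j k s _ _ _ => exact Or.inl (Or.inr ⟨(i, j, k, s), rfl⟩)
  | unitr i j k s _ _ _ => exact Or.inr ⟨(i, j, k, s), rfl⟩

private theorem ca_rel1 {α : Type} [Finite α] (R : List α → List α → Prop) (c0 : List α)
    (hR : {p : List α × List α | R p.1 p.2}.Finite) : {w : GW (Gen α) | Rel1 R c0 w}.Finite := by
  have h1 : {w : GW (Gen α) | StRel α w}.Finite := ca_st
  have h2 := hR.image (fun p => (XW 0 1 p.1 ++ winv (XW 0 1 p.2) : GW (Gen α)))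
  refine ((h1.union h2).union (Set.finite_singleton (XW 0 1 c0))).subset ?_
  intro w hw
  cases hw with
  | st _ h => exact Or.inl (Or.inl h)
  | rule l r h => exact Or.inl (Or.inr ⟨(l, r), h, rfl⟩)
  | zero => exact Or.inr rfl

theorem fixed_list {α : Type} [Finite α] (R : List α → List α → Prop) (c0 : List α)
    (hR : {p : List α × List α | R p.1 p.2}.Finite) :
    ∃ L : List (GW (Gen (L2 α)) × Bool), ∀ p, p ∈ L ↔ Rel2 R c0 p := by
  have h1 : {w : GW (Gen (L2 α)) | StRel (L2 α) w}.Finite := ca_st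
  have h1' := h1.image (fun w => ((w, false) : GW (Gen (L2 α)) × Bool))
  have h2 := Set.finite_range (fun p : Gen α × Bool =>
    ((XW 0 1 [Sum.inl (p.1, p.2), Sum.inl (p.1, !p.2)] ++ winv (XW 0 1 []), false) :
      GW (Gen (L2 α)) × Bool))
  have h3 := (ca_rel1 R c0 hR).image (fun w =>
    ((XW 0 1 (emb w) ++ winv (XW 0 1 []), false) : GW (Gen (L2 α)) × Bool))
  have hfin : {p : GW (Gen (L2 α)) × Bool | Rel2 R c0 p}.Finite := by
    refine (((h1'.union h2).union h3).union
      (Set.finite_singleton ((hw (L2 α), true) : GW (Gen (L2 α)) × Bool))).subset ?_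
    intro p hp
    cases hp with
    | st w h => exact Or.inl (Or.inl (Or.inl ⟨w, h, rfl⟩))
    | inv g b => exact Or.inl (Or.inl (Or.inr ⟨(g, b), rfl⟩))
    | rel w h => exact Or.inl (Or.inr ⟨w, h, rfl⟩)
    | hz => exact Or.inr rfl
  refine ⟨hfin.toFinset.toList, fun p => ?_⟩
  rw [Finset.mem_toList, Set.Finite.mem_toFinset]
  rfl

end Pool.Agent.Lib.SMO
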