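import Pool.Agent.Lib.SMO.CDefs

/-!
# Row CB (110 lines). The relator `amp` is a primitive recursive function of `n`.

Recipe. All types are `Primcodable` (`Gen`, `L2`, `GW` are abbreviations for products, sums, lists); functions on finite types are primitive recursive (`Primrec.dom_finite`).
`winv`: `Primrec.list_reverse`, `Primrec.list_map`; `wcom`: `Primrec.list_append`. The pair `P w := (XW 0 1 w, XW 2 1 w)` satisfies
`P (s :: w) = (wcom [((0, 2, some s), true)] (P w).2, wcom [((2, 0, some s), true)] (P w).1)` (`mid 0 1 = 2`, `mid 2 1 = 0`), so `P w = w.foldr step (P [])`, `Primrec.list_foldr`; hence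
`XW 0 1 : List α → GW (Gen α)` is primitive recursive for every `Primcodable` finite `α` (state this as a private lemma and use it for `α` and for `L2 α`).
`n ↦ List.replicate n b`: `Primrec.nat_rec` or `List.replicate n b = (List.range n).map (fun _ => b)`.
-/

set_option autoImplicit false

namespace Pool.Agent.Lib.SMO

private theorem winv_primrecB {β : Type} [Primcodable β] :
    Primrec fun w : GW β => winv w := by
  have h : Primrec₂ fun (_ : GW β) (a : β × Bool) => (a.1, !a.2) :=
    (Primrec.pair (Primrec.fst.comp Primrec.snd)
      (Primrec.not.comp (Primrec.snd.comp Primrec.snd))).to₂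
  exact Primrec.list_reverse.comp (Primrec.list_map Primrec.id h)

private theorem wcom_primrecB {β : Type} [Primcodable β] :
    Primrec fun p : GW β × GW β => wcom p.1 p.2 := by
  unfold wcom
  exact Primrec.list_append.comp (Primrec.list_append.comp (Primrec.list_append.comp Primrec.fst
    Primrec.snd) (winv_primrecB.comp Primrec.fst)) (winv_primrecB.comp Primrec.snd)

private theorem letter_primrecB {β : Type} [Primcodable β] (i j : Fin 6) :
    Primrec fun s : β => ([((i, j, some s), true)] : GW (Gen β)) := by
  have h : Primrec fun s : β => (((i, j, some s), true) : Gen β × Bool) :=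
    Primrec.pair (Primrec.pair (Primrec.const i) (Primrec.pair (Primrec.const j)
      Primrec.option_some)) (Primrec.const true)
  exact Primrec.list_cons.comp h (Primrec.const ([] : GW (Gen β)))

private def stepB {β : Type} (s : β) (p : GW (Gen β) × GW (Gen β)) : GW (Gen β) × GW (Gen β) :=
  (wcom [((0, 2, some s), true)] p.2, wcom [((2, 0, some s), true)] p.1)

private theorem foldB {β : Type} (w : List β) :
    w.foldr stepB (XW 0 1 [], XW 2 1 []) = (XW 0 1 w, XW 2 1 w) := by
  induction w with
  | nil => rfl
  | cons s w ih =>
    rw [List.foldr_cons, ih]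
    rfl

private theorem XW_primrecB {β : Type} [Primcodable β] :
    Primrec fun w : List β => (XW 0 1 w : GW (Gen β)) := by
  have h1 : Primrec fun a : List β × (β × (GW (Gen β) × GW (Gen β))) =>
      wcom [((0, 2, some a.2.1), true)] a.2.2.2 :=
    wcom_primrecB.comp (Primrec.pair ((letter_primrecB 0 2).comp
      (Primrec.fst.comp Primrec.snd)) (Primrec.snd.comp (Primrec.snd.comp Primrec.snd)))
  have h2 : Primrec fun a : List β × (β × (GW (Gen β) × GW (Gen β))) =>
      wcom [((2, 0, some a.2.1), true)] a.2.2.1 :=
    wcom_primrecB.comp (Primrec.pair ((letter_primrecB 2 0).comp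
      (Primrec.fst.comp Primrec.snd)) (Primrec.fst.comp (Primrec.snd.comp Primrec.snd)))
  have hstep : Primrec₂ fun (_ : List β) (q : β × (GW (Gen β) × GW (Gen β))) =>
      stepB q.1 q.2 := Primrec.to₂ (Primrec.pair h1 h2)
  have h := Primrec.list_foldr (Primrec.id (α := List β))
    (Primrec.const ((XW 0 1 [], XW 2 1 []) : GW (Gen β) × GW (Gen β))) hstep
  have h3 := Primrec.fst.comp h
  refine h3.of_eq fun w => ?_
  change (w.foldr (fun b s => stepB b s) (XW 0 1 [], XW 2 1 [])).1 = XW 0 1 w
  rw [foldB]

private theorem replicate_primrecB {β : Type} [Primcodable β] (b : β) :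
    Primrec fun n : ℕ => List.replicate n b := by
  have h : Primrec fun n : ℕ => (List.range n).map fun _ => b :=
    Primrec.list_map Primrec.list_range (Primrec.const b).to₂
  refine h.of_eq fun n => ?_
  rw [List.map_const', List.length_range]

private theorem wn_primrecB {β : Type} [Primcodable β] (pre post : List β) (b : β) :
    Primrec fun n : ℕ => wn pre post b n := by
  unfold wn
  exact Primrec.list_append.comp (Primrec.const pre)
    (Primrec.list_append.comp (replicate_primrecB b) (Primrec.const post))

private theorem emb_primrecB {α : Type} [Primcodable α] :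
    Primrec fun w : GW (Gen α) => (emb w : List (L2 α)) := by
  unfold emb
  exact Primrec.list_map Primrec.id (Primrec.sumInl.comp Primrec.snd).to₂

private theorem amp_primrecB {α : Type} [Primcodable α] :
    Primrec fun g : GW (Gen α) => amp g := by
  have h : ∀ c : Bool, Primrec fun g : GW (Gen α) =>
      (XW 0 1 (Sum.inr c :: (emb g ++ [Sum.inr c])) : GW (Gen (L2 α))) := fun c =>
    XW_primrecB.comp (Primrec.list_cons.comp (Primrec.const (Sum.inr c : L2 α))
      (Primrec.list_append.comp emb_primrecB (Primrec.const [(Sum.inr c : L2 α)])))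
  unfold amp
  exact Primrec.list_append.comp (Primrec.list_append.comp (Primrec.list_append.comp
    (Primrec.list_append.comp (h true) (Primrec.const _)) (h false)) (Primrec.const _))
    (Primrec.const _)

theorem amp_primrec {α : Type} [Primcodable α] [Finite α] (pre post : List α) (b : α) :
    Primrec fun n : ℕ => amp (XW 0 1 (wn pre post b n)) :=
  amp_primrecB.comp (XW_primrecB.comp (wn_primrecB pre post b))

theorem cdw_primrec {β : Type} [Primcodable β] [Finite β] (e : β → ℕ) :
    Primrec fun w : GW β => cdw e w := by
  unfold cdw
  exact Primrec.list_map Primrec.id (Primrec.pair ((Primrec.dom_finite e).comp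
    (Primrec.fst.comp Primrec.snd)) (Primrec.snd.comp Primrec.snd)).to₂

end Pool.Agent.Lib.SMO
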