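import Pool.Agent.Lib.SMO.MDefs

/-!
# Row MA (90 lines). Transvections.

Recipe. Units are equal if their values are (`Units.ext`); the value of `tv i j a` for `i ≠ j` is `1 + Matrix.single i j a`. Products of `Matrix.single`:
`Matrix.single_mul_single_same`, `Matrix.single_mul_single_of_ne`.
-/

set_option autoImplicit false

namespace Pool.Agent.Lib.SMO

variable {A : Type} [Ring A]

theorem tv_val (i j : Fin 6) (h : i ≠ j) (a : A) :
    (tv i j a : Matrix (Fin 6) (Fin 6) A) = 1 + Matrix.single i j a := by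
  unfold tv
  rw [dif_neg h]

theorem tv_mul (i j : Fin 6) (h : i ≠ j) (a b : A) : tv i j a * tv i j b = tv i j (a + b) := by
  apply Units.ext
  rw [Units.val_mul, tv_val i j h, tv_val i j h, tv_val i j h, Matrix.single_add]
  have h0 : Matrix.single i j a * Matrix.single i j b = 0 :=
    Matrix.single_mul_single_of_ne _ _ _ _ (Ne.symm h) _
  rw [mul_add, add_mul, add_mul, h0]
  simp only [mul_one, one_mul, add_zero]
  abel

theorem tv_zero (i j : Fin 6) : tv i j (0 : A) = 1 := by
  by_cases h : i = j
  · unfold tv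
    rw [dif_pos h]
  · apply Units.ext
    rw [tv_val i j h]
    simp

theorem tv_inv (i j : Fin 6) (h : i ≠ j) (a : A) : (tv i j a)⁻¹ = tv i j (-a) := by
  rw [inv_eq_iff_mul_eq_one, tv_mul i j h, add_neg_cancel, tv_zero]

theorem tv_inj (i j : Fin 6) (h : i ≠ j) {a b : A} (hab : tv i j a = tv i j b) : a = b := by
  have h1 := congrArg (fun u : (Matrix (Fin 6) (Fin 6) A)ˣ => (u : Matrix (Fin 6) (Fin 6) A)) hab
  simp only [tv_val i j h] at h1
  have h2 := add_left_cancel h1
  have h3 := congrFun (congrFun h2 i) j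
  simpa using h3

theorem tv_comm (i j k l : Fin 6) (h1 : j ≠ k) (h2 : i ≠ l) (a b : A) :
    Commute (tv i j a) (tv k l b) := by
  by_cases hij : i = j
  · subst hij
    have : tv i i a = (1 : (Matrix (Fin 6) (Fin 6) A)ˣ) := by
      unfold tv
      rw [dif_pos rfl]
    rw [this]
    exact Commute.one_left _
  by_cases hkl : k = l
  · subst hkl
    have : tv k k b = (1 : (Matrix (Fin 6) (Fin 6) A)ˣ) := by
      unfold tv
      rw [dif_pos rfl]
    rw [this]
    exact Commute.one_right _
  apply Units.ext
  rw [Units.val_mul, Units.val_mul, tv_val i j hij, tv_val k l hkl]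
  have e1 : Matrix.single i j a * Matrix.single k l b = 0 :=
    Matrix.single_mul_single_of_ne _ _ _ _ h1 _
  have e2 : Matrix.single k l b * Matrix.single i j a = 0 :=
    Matrix.single_mul_single_of_ne _ _ _ _ (Ne.symm h2) _
  rw [mul_add, add_mul, add_mul, e1, mul_add, add_mul, add_mul, e2]
  simp only [mul_one, one_mul, add_zero]
  abel

theorem tv_com (i j k : Fin 6) (h1 : i ≠ j) (h2 : j ≠ k) (h3 : i ≠ k) (a b : A) :
    com (tv i j a) (tv j k b) = tv i k (a * b) := by
  unfold com
  rw [tv_inv i j h1, tv_inv j k h2]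
  apply Units.ext
  rw [Units.val_mul, Units.val_mul, Units.val_mul, tv_val i j h1, tv_val j k h2, tv_val i j h1,
    tv_val j k h2, tv_val i k h3]
  have e1 : ∀ x y : A, Matrix.single i j x * Matrix.single j k y = Matrix.single i k (x * y) :=
    fun x y => Matrix.single_mul_single_same _ _ _ _ _
  have e2 : ∀ x y : A, Matrix.single j k x * Matrix.single i j y = 0 :=
    fun x y => Matrix.single_mul_single_of_ne _ _ _ _ (Ne.symm h3) _
  have e3 : ∀ x y : A, Matrix.single i j x * Matrix.single i j y = 0 :=
    fun x y => Matrix.single_mul_single_of_ne _ _ _ _ (Ne.symm h1) _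
  have e4 : ∀ x y : A, Matrix.single j k x * Matrix.single j k y = 0 :=
    fun x y => Matrix.single_mul_single_of_ne _ _ _ _ (Ne.symm h2) _
  have e5 : ∀ x y : A, Matrix.single i k x * Matrix.single i j y = 0 :=
    fun x y => Matrix.single_mul_single_of_ne _ _ _ _ (Ne.symm h3) _
  have e6 : ∀ x y : A, Matrix.single i k x * Matrix.single j k y = 0 :=
    fun x y => Matrix.single_mul_single_of_ne _ _ _ _ (Ne.symm h2) _
  simp only [mul_add, add_mul, e1, e2, e3, e4, e5, e6, mul_one, one_mul, add_zero,
    mul_neg, neg_mul, ← Matrix.single_neg]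
  abel

end Pool.Agent.Lib.SMO
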