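import Pool.Agent.Lib.SMO.SDefs

/-!
# Row SA (50 lines). Values of words.

Recipe. `ev` is a product over the list: `List.map_append`, `List.prod_append`; `ev_winv` by induction on `w` (`winv (a :: w) = winv w ++ [(a.1, !a.2)]`).
`ev_XW` by induction on `w` (generalizing `i`).
-/

set_option autoImplicit false

namespace Pool.Agent.Lib.SMO

theorem ev_append {β : Type} {G : Type*} [Group G] (f : β → G) (v w : GW β) :
    ev f (v ++ w) = ev f v * ev f w := by
  unfold ev
  rw [List.map_append, List.prod_append]

theorem ev_single {β : Type} {G : Type*} [Group G] (f : β → G) (b : β) :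
    ev f [(b, true)] = f b ∧ ev f [(b, false)] = (f b)⁻¹ := by
  constructor <;> simp [ev]

private lemma sa_cons {β : Type} {G : Type*} [Group G] (f : β → G) (a : β × Bool) (w : GW β) :
    ev f (a :: w) = (if a.2 then f a.1 else (f a.1)⁻¹) * ev f w := by
  unfold ev
  rw [List.map_cons, List.prod_cons]

theorem ev_winv {β : Type} {G : Type*} [Group G] (f : β → G) (w : GW β) :
    ev f (winv w) = (ev f w)⁻¹ := by
  induction w with
  | nil => simp [ev, winv]
  | cons a w ih =>
    have h1 : winv (a :: w) = winv w ++ [(a.1, !a.2)] := by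
      unfold winv
      rw [List.map_cons, List.reverse_cons]
    rw [h1, ev_append, ih, sa_cons f a w, mul_inv_rev]
    congr 1
    obtain ⟨b, s⟩ := a
    cases s
    · exact (ev_single f b).1.trans (by simp)
    · exact (ev_single f b).2.trans (by simp)

theorem ev_wcom {β : Type} {G : Type*} [Group G] (f : β → G) (v w : GW β) :
    ev f (wcom v w) = com (ev f v) (ev f w) := by
  unfold wcom com
  rw [ev_append, ev_append, ev_append, ev_winv, ev_winv]

theorem ev_XW {α : Type} {G : Type*} [Group G] (f : Gen α → G) (i j : Fin 6) (w : List α) :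
    ev f (XW i j w) = X f i j w := by
  induction w generalizing i with
  | nil => exact (ev_single f (i, j, none)).1
  | cons s w ih =>
    show ev f (wcom [((i, mid i j, some s), true)] (XW (mid i j) j w)) =
      com (f (i, mid i j, some s)) (X f (mid i j) j w)
    rw [ev_wcom, ih, (ev_single f _).1]

private lemma sa_com {G : Type*} [Group G] {a b : G} : com a b = 1 ↔ Commute a b := by
  unfold com
  rw [mul_inv_eq_one, mul_inv_eq_iff_eq_mul]
  exact Iff.rfl

private lemma sa_wcom1 {β : Type} {G : Type*} [Group G] (f : β → G) (a b : β) :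
    ev f (wcom [(a, true)] [(b, true)]) = com (f a) (f b) := by
  rw [ev_wcom, (ev_single f a).1, (ev_single f b).1]

private lemma sa_wcom2 {β : Type} {G : Type*} [Group G] (f : β → G) (a b c : β) :
    ev f (wcom [(a, true)] [(b, true)] ++ [(c, false)]) = 1 ↔ com (f a) (f b) = f c := by
  rw [ev_append, sa_wcom1, (ev_single f c).2, mul_inv_eq_one]

/-- The Steinberg relators. -/
theorem St_iff {α : Type} {G : Type*} [Group G] (f : Gen α → G) :
    St f ↔ ∀ w, StRel α w → ev f w = 1 := by
  constructor
  · intro h w hw
    cases hw with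
    | junk i s => rw [(ev_single f _).1]; exact h.junk i s
    | comm i j k l s t h1 h2 => rw [sa_wcom1, sa_com]; exact h.comm i j k l s t h1 h2
    | unitl i j k s h1 h2 h3 => rw [sa_wcom2]; exact h.unitl i j k s h1 h2 h3
    | unitr i j k s h1 h2 h3 => rw [sa_wcom2]; exact h.unitr i j k s h1 h2 h3
  · intro h
    refine ⟨fun i s => ?_, fun i j k l s t h1 h2 => ?_, fun i j k s h1 h2 h3 => ?_,
      fun i j k s h1 h2 h3 => ?_⟩
    · rw [← (ev_single f (i, i, s)).1]
      exact h _ (StRel.junk i s)
    · rw [← sa_com, ← sa_wcom1]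
      exact h _ (StRel.comm i j k l s t h1 h2)
    · rw [← sa_wcom2]
      exact h _ (StRel.unitl i j k s h1 h2 h3)
    · rw [← sa_wcom2]
      exact h _ (StRel.unitr i j k s h1 h2 h3)

end Pool.Agent.Lib.SMO
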