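import Pool.Agent.Lib.SMO.MDefs
import Pool.Agent.Lib.SMO.SA
import Pool.Agent.Lib.SMO.MA

/-!
# Row MB. The matrix model of the Steinberg relations and of the first level.
-/

set_option autoImplicit false

namespace Pool.Agent.Lib.SMO

variable {α A : Type} [Ring A]

theorem gm_St (μ : α → A) : St (gm μ) := by
  refine ⟨?_, ?_, ?_, ?_⟩
  · intro i s
    show tv i i (s.elim 1 μ) = 1
    unfold tv
    rw [dif_pos rfl]
  · intro i j k l s t h1 h2
    exact tv_comm i j k l h1 h2 _ _
  · intro i j k s h1 h2 h3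
    have := tv_com i j k h1 h2 h3 (1 : A) (s.elim 1 μ)
    rw [one_mul] at this
    exact this
  · intro i j k s h1 h2 h3
    have := tv_com i j k h1 h2 h3 (s.elim 1 μ) (1 : A)
    rw [mul_one] at this
    exact this

theorem gm_X (μ : α → A) (i j : Fin 6) (h : i ≠ j) (w : List α) :
    X (gm μ) i j w = tv i j (w.map μ).prod := by
  induction w generalizing i with
  | nil =>
    show tv i j ((none : Option α).elim 1 μ) = _
    simp
  | cons s w ih =>
    show com (tv i (mid i j) ((some s).elim 1 μ)) (X (gm μ) (mid i j) j w) = _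
    rw [ih (mid i j) (mid_ne i j).2,
      tv_com i (mid i j) j (mid_ne i j).1.symm (mid_ne i j).2 h]
    simp

theorem gm_Rel1 (R : List α → List α → Prop) (c0 w : List α) (μ : α → A)
    (h : RingModel R c0 w A μ) : ∀ v, Rel1 R c0 v → ev (gm μ) v = 1 := by
  intro v hv
  have h01 : (0 : Fin 6) ≠ 1 := by decide
  cases hv with
  | st _ hs => exact (St_iff (gm μ)).1 (gm_St μ) _ hs
  | rule l r hr =>
    rw [ev_append, ev_winv, ev_XW, ev_XW, gm_X μ 0 1 h01, gm_X μ 0 1 h01, h.rule l r hr,
      mul_inv_cancel]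
  | zero =>
    rw [ev_XW, gm_X μ 0 1 h01, h.zero]
    exact tv_zero 0 1

end Pool.Agent.Lib.SMO
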