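import Pool.Agent.Lib.SMO.MDefs
import Pool.Agent.Lib.SMO.SA
import Pool.Agent.Lib.SMO.MA

/-!
# Row MC (60 lines). The central element.

Recipe. The value of the word `hw` involves only `tv i j 1` and `(tv i j 1)⁻¹ = tv i j (-1)`, which are images of integer matrices under `(Int.castRingHom A).mapMatrix`
(`Matrix.map`, `map_mul`, `map_one`); over `ℤ` the 6 x 6 identity `(x₀₁ x₁₀⁻¹ x₀₁)² (x₂₃ x₃₂⁻¹ x₂₃)² (x₄₅ x₅₄⁻¹ x₄₅)² = -1` can be checked by `decide` (or by
`ext i j; fin_cases i <;> fin_cases j <;> ...`), best in three steps: `(x₀₁ x₁₀⁻¹ x₀₁)² = diag (-1, -1, 1, 1, 1, 1)` and so on. Or directly over `A`: with `e = single 0 1 1`,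
`e' = single 1 0 1`, `w = (1 + e) (1 - e') (1 + e) = 1 - e e' - e' e + e - e'`, and so on.
-/

set_option autoImplicit false

namespace Pool.Agent.Lib.SMO

private def TZ (i j : Fin 6) (a : ℤ) : Matrix (Fin 6) (Fin 6) ℤ :=
  1 + Matrix.single i j a

private def PZ (i j : Fin 6) : Matrix (Fin 6) (Fin 6) ℤ := TZ i j 1 * TZ j i (-1) * TZ i j 1

private def DZ (i j : Fin 6) : Matrix (Fin 6) (Fin 6) ℤ :=
  Matrix.diagonal fun k => if k = i ∨ k = j then -1 else 1

private theorem sq_PZ (i j : Fin 6) (h : i ≠ j) : PZ i j * PZ i j = DZ i j := by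
  have h1 : PZ i j = 1 - Matrix.single i i 1 - Matrix.single j j 1 + Matrix.single i j 1 -
      Matrix.single j i 1 := by
    have e1 : (Matrix.single j i (-1 : ℤ)) = - (Matrix.single j i (1 : ℤ) :
        Matrix (Fin 6) (Fin 6) ℤ) := by
      ext r s
      simp only [Matrix.single, Matrix.of_apply, Matrix.neg_apply]
      split_ifs <;> simp
    have e2 : (Matrix.single i j (1 : ℤ) : Matrix (Fin 6) (Fin 6) ℤ) * Matrix.single i j (1 : ℤ)
        = 0 := Matrix.single_mul_single_of_ne _ _ _ _ (Ne.symm h) _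
    have e3 : (Matrix.single i j (1 : ℤ) : Matrix (Fin 6) (Fin 6) ℤ) * Matrix.single j i (1 : ℤ)
        = Matrix.single i i 1 := by
      rw [Matrix.single_mul_single_same, one_mul]
    have e4 : (Matrix.single j i (1 : ℤ) : Matrix (Fin 6) (Fin 6) ℤ) * Matrix.single i j (1 : ℤ)
        = Matrix.single j j 1 := by
      rw [Matrix.single_mul_single_same, one_mul]
    have e5 : (Matrix.single i i (1 : ℤ) : Matrix (Fin 6) (Fin 6) ℤ) * Matrix.single i j (1 : ℤ)
        = Matrix.single i j 1 := by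
      rw [Matrix.single_mul_single_same, one_mul]
    rw [PZ, TZ, TZ, e1]
    simp only [mul_add, add_mul, mul_neg, neg_mul, mul_one, one_mul, e2, e3, e4, e5]
    abel
  have hsame : ∀ a b c : Fin 6, (Matrix.single a b (1 : ℤ) : Matrix (Fin 6) (Fin 6) ℤ) *
      Matrix.single b c (1 : ℤ) = Matrix.single a c 1 := by
    intro a b c
    rw [Matrix.single_mul_single_same, one_mul]
  have hne : ∀ a b c d : Fin 6, b ≠ c → (Matrix.single a b (1 : ℤ) : Matrix (Fin 6) (Fin 6) ℤ) *
      Matrix.single c d (1 : ℤ) = 0 := by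
    intro a b c d hbc
    exact Matrix.single_mul_single_of_ne _ _ _ _ hbc _
  have h2 : DZ i j = 1 - 2 • Matrix.single i i 1 - 2 • Matrix.single j j 1 := by
    ext r s
    simp only [DZ, Matrix.diagonal_apply, Matrix.sub_apply, Matrix.one_apply, Matrix.smul_apply,
      Matrix.single, Matrix.of_apply]
    by_cases hrs : r = s
    · subst hrs
      by_cases hi : i = r
      · subst hi
        simp [Ne.symm h]
      · by_cases hj : j = r
        · subst hj
          simp [h]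
        · simp [hi, hj, Ne.symm hi, Ne.symm hj]
    · have hi : ¬ (i = r ∧ i = s) := fun hh => hrs (hh.1.symm.trans hh.2)
      have hj : ¬ (j = r ∧ j = s) := fun hh => hrs (hh.1.symm.trans hh.2)
      simp [hrs, hi, hj]
  rw [h1, h2]
  simp only [mul_add, add_mul, mul_sub, sub_mul, mul_one, one_mul, hsame, hne _ _ _ _ h,
    hne _ _ _ _ (Ne.symm h)]
  abel

private theorem DZ_mul : DZ 0 1 * DZ 2 3 * DZ 4 5 = -1 := by
  rw [DZ, DZ, DZ, Matrix.diagonal_mul_diagonal, Matrix.diagonal_mul_diagonal,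
    ← Matrix.diagonal_one, Matrix.diagonal_neg]
  congr 1
  funext k
  revert k
  decide

theorem gm_hw {β A : Type} [Ring A] (μ : β → A) : ev (gm μ) (hw β) = -1 := by
  have hs : ∀ (i j : Fin 6) (a : ℤ), (1 + Matrix.single i j (a : A)) =
      (Int.castRingHom A).mapMatrix (TZ i j a) := by
    intro i j a
    rw [TZ, map_add, map_one]
    congr 1
    ext r s
    simp only [RingHom.mapMatrix_apply, Matrix.map_apply, Matrix.single, Matrix.of_apply,
      eq_intCast]
    split_ifs <;> simp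
  have hp : ∀ i j : Fin 6, i ≠ j →
      ((tv i j (1 : A) * (tv j i (1 : A))⁻¹ * tv i j (1 : A) : (Matrix (Fin 6) (Fin 6) A)ˣ) :
        Matrix (Fin 6) (Fin 6) A) = (Int.castRingHom A).mapMatrix (PZ i j) := by
    intro i j hij
    rw [tv_inv j i hij.symm, Units.val_mul, Units.val_mul, tv_val i j hij, tv_val j i hij.symm,
      PZ, map_mul, map_mul, ← hs, ← hs]
    simp
  have hev : ev (gm μ) (hw β) =
      (tv 0 1 1 * (tv 1 0 1)⁻¹ * tv 0 1 1) * (tv 0 1 1 * (tv 1 0 1)⁻¹ * tv 0 1 1) *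
      ((tv 2 3 1 * (tv 3 2 1)⁻¹ * tv 2 3 1) * (tv 2 3 1 * (tv 3 2 1)⁻¹ * tv 2 3 1)) *
      ((tv 4 5 1 * (tv 5 4 1)⁻¹ * tv 4 5 1) * (tv 4 5 1 * (tv 5 4 1)⁻¹ * tv 4 5 1)) := by
    simp [ev, hw, gm, mul_assoc]
  rw [hev]
  refine Units.ext ?_
  rw [Units.val_mul, Units.val_mul, Units.val_mul _ (tv 0 1 (1 : A) * _ * _),
    Units.val_mul (tv 2 3 (1 : A) * _ * _), Units.val_mul (tv 4 5 (1 : A) * _ * _),
    hp 0 1 (by decide), hp 2 3 (by decide), hp 4 5 (by decide), ← map_mul, ← map_mul, ← map_mul,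
    ← map_mul, ← map_mul, sq_PZ 0 1 (by decide), sq_PZ 2 3 (by decide), sq_PZ 4 5 (by decide),
    DZ_mul, map_neg, map_one]
  rfl

end Pool.Agent.Lib.SMO
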