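import Pool.Agent.Lib.SMO.MDefs
import Pool.Agent.Lib.SMO.SA
import Pool.Agent.Lib.SMO.MA
import Pool.Agent.Lib.SMO.MB
import Pool.Agent.Lib.SMO.MC
import Pool.Agent.Lib.SMO.AM

/-!
# Row ME (120 lines). The finite group of the second level.

Recipe. `F1 := (Matrix (Fin 6) (Fin 6) A)ˣ` (finite), `y := gm μ : Gen α → F1`, `g := ev y (XW 0 1 w) = tv 0 1 (w.map μ).prod` (`ev_XW`, `gm_X`); `g ≠ 1` (`tv_inj`, `tv_zero`),
`g * g = tv 0 1 (2 * _) = 1` (`h.two`). `amplify g` gives `A2, ρ, p, p'`. `μ2 : L2 α → A2`: `inl (x, true) ↦ ρ (y x)`, `inl (x, false) ↦ ρ (y x)⁻¹`, `inr true ↦ p`,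
`inr false ↦ p'`; then `((emb v).map μ2).prod = ρ (ev y v)`. `f := gm μ2 : Gen (L2 α) → (Matrix (Fin 6) (Fin 6) A2)ˣ`, `z := -1` (central, `z * z = 1`, `z ≠ 1` because `2 ≠ 0` in
`A2`: look at the entry `(0, 0)`). Relators: `St_iff` and `gm_St`; `inv`: product `ρ (y x) * ρ (y x)⁻¹ = 1`; `rel`: `gm_Rel1`; `hz`: `gm_hw`. `amp`: product of transvections
`tv 0 1 (p ρ(g) p) * (tv 0 1 (p p))⁻¹ * ... * tv 0 1 1 = tv 0 1 0`.
-/

set_option autoImplicit false

namespace Pool.Agent.Lib.SMO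

/-- The images of the letters of the second level. -/
private def mu2 {α F A2 : Type} [Group F] [Ring A2] (y : Gen α → F) (ρ : F →* A2) (p p' : A2) :
    L2 α → A2
  | Sum.inl a => ρ (if a.2 then y a.1 else (y a.1)⁻¹)
  | Sum.inr b => if b then p else p'

private lemma mu2_emb {α F A2 : Type} [Group F] [Ring A2] (y : Gen α → F) (ρ : F →* A2)
    (p p' : A2) (v : GW (Gen α)) : ((emb v).map (mu2 y ρ p p')).prod = ρ (ev y v) := by
  unfold emb ev
  rw [map_list_prod, List.map_map, List.map_map]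
  rfl

theorem model {α A : Type} [Ring A] (R : List α → List α → Prop) (c0 w : List α) (μ : α → A)
    (h : RingModel R c0 w A μ) :
    ∃ (F : Type) (_ : Group F) (_ : Finite F) (f : Gen (L2 α) → F) (z : F), z * z = 1 ∧ z ≠ 1 ∧
      (∀ g, Commute z (f g)) ∧ (∀ p, Rel2 R c0 p → ev f p.1 = if p.2 then z else 1) ∧
      ev f (amp (XW 0 1 w)) = 1 := by
  have h01 : (0 : Fin 6) ≠ 1 := by decide
  have := h.fin
  have : Finite (Matrix (Fin 6) (Fin 6) A) := inferInstanceAs (Finite (Fin 6 → Fin 6 → A))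
  have : Finite (Matrix (Fin 6) (Fin 6) A)ˣ := inferInstance
  have hg : ev (gm μ) (XW 0 1 w) = tv 0 1 (w.map μ).prod := by
    rw [ev_XW, gm_X μ 0 1 h01]
  have hg2 : ev (gm μ) (XW 0 1 w) * ev (gm μ) (XW 0 1 w) = 1 := by
    rw [hg, tv_mul 0 1 h01, ← two_mul, h.two, zero_mul, tv_zero]
  have hg1 : ev (gm μ) (XW 0 1 w) ≠ 1 := by
    intro e
    rw [hg, ← tv_zero 0 1] at e
    exact h.ne (tv_inj 0 1 h01 e)
  obtain ⟨A2, iR, iF, ρ, p, p', h2, hsum⟩ := amplify (ev (gm μ) (XW 0 1 w)) hg2 hg1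
  have : Finite (Matrix (Fin 6) (Fin 6) A2) := inferInstanceAs (Finite (Fin 6 → Fin 6 → A2))
  have : Finite (Matrix (Fin 6) (Fin 6) A2)ˣ := inferInstance
  have hev : ∀ v, ev (gm (mu2 (gm μ) ρ p p')) (XW 0 1 v)
      = tv 0 1 (v.map (mu2 (gm μ) ρ p p')).prod := by
    intro v
    rw [ev_XW, gm_X _ 0 1 h01]
  refine ⟨(Matrix (Fin 6) (Fin 6) A2)ˣ, inferInstance, inferInstance, gm (mu2 (gm μ) ρ p p'), -1,
    ?_, ?_, ?_, ?_, ?_⟩
  · simp
  · intro e
    have e1 := congrArg (fun u : (Matrix (Fin 6) (Fin 6) A2)ˣ =>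
      (u : Matrix (Fin 6) (Fin 6) A2) 0 0) e
    simp only [Units.val_neg, Units.val_one, Matrix.neg_apply, Matrix.one_apply_eq] at e1
    apply h2
    have : (1 : A2) + 1 = 0 := by
      nth_rewrite 1 [← e1]
      simp
    rw [← this]
    norm_num
  · intro g
    exact Commute.neg_one_left _
  · intro q hq
    cases hq with
    | st v hv => simpa using (St_iff _).1 (gm_St _) v hv
    | inv x b =>
      simp only [Bool.false_eq_true, if_false]
      rw [ev_append, ev_winv, hev, hev, mul_inv_eq_one]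
      congr 1
      simp only [List.map_cons, List.map_nil, List.prod_cons, List.prod_nil, mul_one]
      cases b <;> simp [mu2, ← map_mul]
    | rel v hv =>
      simp only [Bool.false_eq_true, if_false]
      rw [ev_append, ev_winv, hev, hev, mul_inv_eq_one]
      congr 1
      rw [mu2_emb, gm_Rel1 R c0 w μ h v hv]
      simp
    | hz => simpa using gm_hw _
  · unfold amp
    rw [ev_append, ev_append, ev_append, ev_append, ev_winv, ev_winv, hev, hev, hev, hev, hev,
      tv_inv 0 1 h01, tv_inv 0 1 h01, tv_mul 0 1 h01, tv_mul 0 1 h01, tv_mul 0 1 h01,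
      tv_mul 0 1 h01]
    rw [← tv_zero 0 1]
    congr 1
    simp only [List.map_cons, List.map_nil, List.prod_cons, List.prod_nil, mul_one,
      List.map_append, List.prod_append, mu2_emb]
    have e1 : mu2 (gm μ) ρ p p' (Sum.inr true) = p := rfl
    have e2 : mu2 (gm μ) ρ p p' (Sum.inr false) = p' := rfl
    rw [e1, e2, ← hsum]
    simp only [mul_assoc]
    abel

end Pool.Agent.Lib.SMO
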