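import Pool.Agent.Lib.SMO.SDefs

/-!
# Row SB. The Steinberg calculus.
-/

set_option autoImplicit false

namespace Pool.Agent.Lib.SMO

theorem com_tri {G : Type*} [Group G] (a b c : G) (h1 : Commute a c) (h2 : Commute (com b c) c)
    (h3 : Commute (com a b) (com b c)) : com a (com b c) = com (com a b) c := by
  have e1 : a * c * a⁻¹ = c := by rw [h1.eq, mul_inv_cancel_right]
  have e2 : a * b * a⁻¹ = com a b * b := by unfold com; group
  have e3 : a * com b c * a⁻¹ =
      (a * b * a⁻¹) * (a * c * a⁻¹) * (a * b * a⁻¹)⁻¹ * (a * c * a⁻¹)⁻¹ := by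
    unfold com; group
  have e4 : a * com b c * a⁻¹ = com a b * com b c * (c * (com a b)⁻¹ * c⁻¹) := by
    rw [e3, e1, e2]
    have : com b c = b * c * b⁻¹ * c⁻¹ := rfl
    rw [this]
    group
  have h4 : Commute (com b c) (c * (com a b)⁻¹ * c⁻¹) :=
    (h2.mul_right h3.symm.inv_right).mul_right h2.inv_right
  have e5 : com a (com b c) = a * com b c * a⁻¹ * (com b c)⁻¹ := rfl
  have e6 : com (com a b) c = com a b * (c * (com a b)⁻¹ * c⁻¹) := by
    unfold com; group
  rw [e5, e4, e6, mul_assoc (com a b), h4.eq, ← mul_assoc (com a b), mul_inv_cancel_right]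

private lemma sb_com {G : Type*} [Group G] {x a b : G} (h1 : Commute x a) (h2 : Commute x b) :
    Commute x (com a b) :=
  ((h1.mul_right h2).mul_right h1.inv_right).mul_right h2.inv_right

private lemma sb_ex : ∀ i j k l : Fin 6, ∃ m : Fin 6, m ≠ i ∧ m ≠ j ∧ m ≠ k ∧ m ≠ l := by
  decide

variable {α : Type} {G : Type*} [Group G] {f : Gen α → G}

/-- The statements for words of length at most `n`. -/
private structure SBT (f : Gen α → G) (n : ℕ) : Prop where
  C : ∀ w : List α, w.length ≤ n → ∀ i j m : Fin 6, i ≠ j → m ≠ i → m ≠ j →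
    com (f (i, m, none)) (X f m j w) = X f i j w
  B' : ∀ w : List α, w.length ≤ n → ∀ (s : Option α) (i j k l : Fin 6), k ≠ l → j ≠ k → i ≠ l →
    Commute (f (i, j, s)) (X f k l w)
  B : ∀ v w : List α, v.length ≤ n → w.length ≤ n → ∀ i j k l : Fin 6, i ≠ j → k ≠ l → j ≠ k →
    i ≠ l → Commute (X f i j v) (X f k l w)

private lemma sb_two (h : St f) {n : ℕ} (T : SBT f n) (w : List α) (hw : w.length ≤ n)
    (i j m p : Fin 6) (hij : i ≠ j) (hmi : m ≠ i) (hmj : m ≠ j) (hpi : p ≠ i) (hpj : p ≠ j)
    (hmp : m ≠ p) (s : α) :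
    com (f (i, m, some s)) (X f m j w) = com (f (i, p, some s)) (X f p j w) := by
  have hC := T.C w hw m j p hmj hmp.symm hpj
  have hab : com (f (i, m, some s)) (f (m, p, none)) = f (i, p, some s) :=
    h.unitr i m p (some s) hmi.symm hmp hpi.symm
  have ht := com_tri (f (i, m, some s)) (f (m, p, none)) (X f p j w)
    (T.B' w hw _ i m p j hpj hmp hij)
    (by rw [hC]; exact T.B w w hw hw m j p j hmj hpj hpj.symm hmj)
    (by rw [hC, hab]; exact T.B' w hw _ i p m j hmj hmp.symm hij)
  rw [hC, hab] at ht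
  exact ht

private lemma sb_A (h : St f) {n : ℕ} (T : SBT f n) (w : List α) (hw : w.length ≤ n)
    (i j m : Fin 6) (hij : i ≠ j) (hmi : m ≠ i) (hmj : m ≠ j) (s : α) :
    X f i j (s :: w) = com (f (i, m, some s)) (X f m j w) := by
  show com (f (i, mid i j, some s)) (X f (mid i j) j w) = _
  rcases eq_or_ne (mid i j) m with e | e
  · rw [e]
  · exact sb_two h T w hw i j (mid i j) m hij (mid_ne i j).1 (mid_ne i j).2 hmi hmj e s

private lemma sb_step (h : St f) {n : ℕ} (T : SBT f n) : SBT f (n + 1) := by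
  have hB' : ∀ w : List α, w.length ≤ n + 1 → ∀ (s : Option α) (i j k l : Fin 6), k ≠ l → j ≠ k →
      i ≠ l → Commute (f (i, j, s)) (X f k l w) := by
    intro w hw s i j k l hkl hjk hil
    cases w with
    | nil => exact h.comm i j k l s none hjk hil
    | cons t w =>
      have hw' : w.length ≤ n := by simpa using hw
      obtain ⟨m, h1, h2, h3, h4⟩ := sb_ex i j k l
      rw [sb_A h T w hw' k l m hkl h3 h4 t]
      exact sb_com (h.comm i j k m s (some t) hjk h1.symm)
        (T.B' w hw' s i j m l h4 h2.symm hil)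
  have hB : ∀ v w : List α, v.length ≤ n + 1 → w.length ≤ n + 1 → ∀ i j k l : Fin 6, i ≠ j →
      k ≠ l → j ≠ k → i ≠ l → Commute (X f i j v) (X f k l w) := by
    intro v
    induction v with
    | nil =>
      intro w _ hw i j k l _ hkl hjk hil
      exact hB' w hw none i j k l hkl hjk hil
    | cons s v ih =>
      intro w hv hw i j k l hij hkl hjk hil
      have hv' : v.length ≤ n := by simpa using hv
      obtain ⟨m, h1, h2, h3, h4⟩ := sb_ex i j k l
      rw [sb_A h T v hv' i j m hij h1 h2 s]
      exact (sb_com (hB' w hw (some s) i m k l hkl h3 hil).symm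
        (ih w (by omega) hw m j k l h2 hkl hjk h4).symm).symm
  refine ⟨?_, hB', hB⟩
  intro w hw i j m hij hmi hmj
  cases w with
  | nil => exact h.unitl i m j none hmi.symm hmj hij
  | cons s w =>
    have hw' : w.length ≤ n := by simpa using hw
    obtain ⟨p, h1, h2, h3, _⟩ := sb_ex i j m m
    have hA := sb_A h T w hw' m j p hmj h3 h2 s
    have hab : com (f (i, m, none)) (f (m, p, some s)) = f (i, p, some s) :=
      h.unitl i m p (some s) hmi.symm h3.symm h1.symm
    have ht := com_tri (f (i, m, none)) (f (m, p, some s)) (X f p j w)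
      (hB' w (by omega) _ i m p j h2 h3.symm hij)
      (by rw [← hA]; exact hB (s :: w) w hw (by omega) m j p j hmj h2 h2.symm hmj)
      (by rw [← hA, hab]; exact hB' (s :: w) hw _ i p m j hmj h3 hij)
    rw [← hA, hab] at ht
    rw [ht, sb_A h T w hw' i j p hij h1 h2 s]

private lemma sb_all (h : St f) (n : ℕ) : SBT f n := by
  induction n with
  | zero =>
    refine ⟨?_, ?_, ?_⟩
    · intro w hw i j m hij hmi hmj
      obtain rfl : w = [] := List.length_eq_zero_iff.1 (by omega)
      exact h.unitl i m j none hmi.symm hmj hij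
    · intro w hw s i j k l _ hjk hil
      obtain rfl : w = [] := List.length_eq_zero_iff.1 (by omega)
      exact h.comm i j k l s none hjk hil
    · intro v w hv hw i j k l _ _ hjk hil
      obtain rfl : w = [] := List.length_eq_zero_iff.1 (by omega)
      obtain rfl : v = [] := List.length_eq_zero_iff.1 (by omega)
      exact h.comm i j k l none none hjk hil
  | succ n ih => exact sb_step h ih

theorem St.X_comm (h : St f) (i j k l : Fin 6) (hij : i ≠ j) (hkl : k ≠ l) (hjk : j ≠ k) (hil : i ≠ l)
    (v w : List α) : Commute (X f i j v) (X f k l w) :=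
  (sb_all h (max v.length w.length)).B v w (le_max_left _ _) (le_max_right _ _) i j k l hij hkl hjk
    hil

theorem St.X_cons (h : St f) (i j m : Fin 6) (hij : i ≠ j) (hmi : m ≠ i) (hmj : m ≠ j) (s : α)
    (w : List α) : X f i j (s :: w) = com (f (i, m, some s)) (X f m j w) :=
  sb_A h (sb_all h w.length) w le_rfl i j m hij hmi hmj s

theorem St.X_single (h : St f) (i j : Fin 6) (hij : i ≠ j) (s : α) :
    X f i j [s] = f (i, j, some s) :=
  h.unitr i (mid i j) j (some s) (mid_ne i j).1.symm (mid_ne i j).2 hij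

theorem St.X_mul (h : St f) (i j k : Fin 6) (hij : i ≠ j) (hjk : j ≠ k) (hik : i ≠ k)
    (v w : List α) : com (X f i j v) (X f j k w) = X f i k (v ++ w) := by
  induction v generalizing i with
  | nil => exact (sb_all h w.length).C w le_rfl i k j hik hij.symm hjk
  | cons s v ih =>
    obtain ⟨m, h1, h2, h3, _⟩ := sb_ex i j k k
    have hA := h.X_cons i j m hij h1 h2 s v
    have hI := ih m h2 h3
    have ht := com_tri (f (i, m, some s)) (X f m j v) (X f j k w)
      ((sb_all h w.length).B' w le_rfl _ i m j k hjk h2 hik)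
      (by rw [hI]; exact h.X_comm m k j k h3 hjk hjk.symm h3 _ _)
      (by rw [hI, ← hA]; exact h.X_comm i j m k hij h3 h2.symm hik _ _)
    rw [hI, ← hA] at ht
    rw [← ht]
    exact (h.X_cons i k m hik h1 h3 s (v ++ w)).symm

end Pool.Agent.Lib.SMO
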