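import Pool.Agent.Lib.SMO.SDefs
import Pool.Agent.Lib.SMO.SA
import Pool.Agent.Lib.SMO.SB

/-!
# Row SC. Congruence and zero in the Steinberg group.
-/

set_option autoImplicit false

namespace Pool.Agent.Lib.SMO

variable {α : Type} {G : Type*} [Group G] {f : Gen α → G}

private lemma com_one_left {G : Type*} [Group G] (a : G) : com 1 a = 1 := by
  simp [com]

private lemma com_one_right {G : Type*} [Group G] (a : G) : com a 1 = 1 := by
  simp [com]

private lemma X02_eq (h : St f) (v : List α) :
    X f 0 2 v = com (X f 0 1 v) (X f 1 2 []) := by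
  have := h.X_mul 0 1 2 (by decide) (by decide) (by decide) v []
  rw [this, List.append_nil]

private lemma X21_eq (h : St f) (w : List α) :
    X f 2 1 w = com (X f 2 0 []) (X f 0 1 w) := by
  have := h.X_mul 2 0 1 (by decide) (by decide) (by decide) [] w
  rw [this, List.nil_append]

private lemma X01_eq (h : St f) (v w : List α) :
    X f 0 1 (v ++ w) = com (X f 0 2 v) (X f 2 1 w) :=
  (h.X_mul 0 2 1 (by decide) (by decide) (by decide) v w).symm

theorem St.X01_congr (h : St f) {v v' w w' : List α} (hv : X f 0 1 v = X f 0 1 v')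
    (hw : X f 0 1 w = X f 0 1 w') : X f 0 1 (v ++ w) = X f 0 1 (v' ++ w') := by
  rw [X01_eq h, X01_eq h v' w', X02_eq h, X02_eq h v', X21_eq h, X21_eq h w', hv, hw]

theorem St.X01_conn (h : St f) {R : List α → List α → Prop}
    (hR : ∀ l r, R l r → X f 0 1 l = X f 0 1 r) {v w : List α} (hc : Conn R v w) :
    X f 0 1 v = X f 0 1 w := by
  induction hc with
  | refl w => rfl
  | step u v l r hlr => exact h.X01_congr rfl (h.X01_congr (hR l r hlr) rfl)
  | symm _ ih => exact ih.symm
  | trans _ _ ih1 ih2 => exact ih1.trans ih2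

theorem St.X01_zero (h : St f) {c0 : List α} (h0 : X f 0 1 c0 = 1) (u v : List α) :
    X f 0 1 (u ++ (c0 ++ v)) = 1 := by
  have h1 : X f 0 1 (c0 ++ v) = 1 := by
    rw [X01_eq h, X02_eq h, h0, com_one_left, com_one_left]
  rw [X01_eq h, X21_eq h, h1, com_one_right, com_one_right]

theorem St.gens_trivial (h : St f) (h1 : f (0, 1, none) = 1) (g : Gen α) : f g = 1 := by
  have hA : ∀ j : Fin 6, j ≠ 0 → f (0, j, none) = 1 := by
    intro j hj
    by_cases hj1 : j = 1
    · rw [hj1, h1]
    · rw [← h.unitl 0 1 j none (by decide) (Ne.symm hj1) (Ne.symm hj), h1, com_one_left]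
  have hB : ∀ i j : Fin 6, i ≠ 0 → j ≠ 0 → i ≠ j → f (i, j, none) = 1 := by
    intro i j hi hj hij
    rw [← h.unitl i 0 j none hi (Ne.symm hj) hij, hA j hj, com_one_right]
  have hC : ∀ i : Fin 6, i ≠ 0 → f (i, 0, none) = 1 := by
    intro i hi
    obtain ⟨hm1, hm2⟩ := mid_ne i 0
    rw [← h.unitl i (mid i 0) 0 none (Ne.symm hm1) hm2 hi, hB i (mid i 0) hi hm2 (Ne.symm hm1),
      com_one_left]
  have hN : ∀ i j : Fin 6, i ≠ j → f (i, j, none) = 1 := by
    intro i j hij
    by_cases hi : i = 0
    · subst hi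
      exact hA j (Ne.symm hij)
    · by_cases hj : j = 0
      · subst hj
        exact hC i hi
      · exact hB i j hi hj hij
  obtain ⟨i, j, s⟩ := g
  by_cases hij : i = j
  · subst hij
    exact h.junk i s
  · obtain ⟨hm1, hm2⟩ := mid_ne i j
    rw [← h.unitl i (mid i j) j s (Ne.symm hm1) hm2 hij, hN i (mid i j) (Ne.symm hm1),
      com_one_left]

/-- First level: if the word contains the zero word up to the relations, then its element is trivial. -/
theorem level1 (R : List α → List α → Prop) (c0 : List α) (hf : ∀ w, Rel1 R c0 w → ev f w = 1)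
    {w u v : List α} (hc : Conn R w (u ++ (c0 ++ v))) : ev f (XW 0 1 w) = 1 := by
  have h : St f := (St_iff f).2 fun w hw => hf w (Rel1.st w hw)
  have h0 : X f 0 1 c0 = 1 := by
    rw [← ev_XW]
    exact hf _ Rel1.zero
  have hR : ∀ l r, R l r → X f 0 1 l = X f 0 1 r := by
    intro l r hlr
    have := hf _ (Rel1.rule l r hlr)
    rw [ev_append, ev_winv, ev_XW, ev_XW] at this
    exact mul_inv_eq_one.1 this
  rw [ev_XW, h.X01_conn hR hc, h.X01_zero h0]

end Pool.Agent.Lib.SMO
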