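import Pool.Agent.Lib.SMO.SDefs
import Pool.Agent.Lib.SMO.SC

/-!
# Row SD. The quotient monoid.
-/

set_option autoImplicit false

namespace Pool.Agent.Lib.SMO

theorem exists_monoid {α G : Type} [Group G] {f : Gen α → G} (h : St f) :
    ∃ (M : Type) (_ : Monoid M) (q : List α → M), q [] = 1 ∧ (∀ v w, q (v ++ w) = q v * q w) ∧
      ∀ v w, q v = q w ↔ X f 0 1 v = X f 0 1 w := by
  let S : Setoid (List α) :=
    { r := fun v w => X f 0 1 v = X f 0 1 w
      iseqv := ⟨fun _ => rfl, fun h => h.symm, fun h h' => h.trans h'⟩ }
  let mul : Quotient S → Quotient S → Quotient S :=
    Quotient.map₂ (fun v w => v ++ w) (fun _ _ hv _ _ hw => h.X01_congr hv hw)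
  let M : Monoid (Quotient S) :=
    { mul := mul
      one := Quotient.mk S []
      mul_assoc := by
        intro a b c
        induction a using Quotient.inductionOn with
        | h a =>
          induction b using Quotient.inductionOn with
          | h b =>
            induction c using Quotient.inductionOn with
            | h c =>
              change Quotient.mk S (a ++ b ++ c) = Quotient.mk S (a ++ (b ++ c))
              rw [List.append_assoc]
      one_mul := by
        intro a
        induction a using Quotient.inductionOn with
        | h a => rfl
      mul_one := by
        intro a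
        induction a using Quotient.inductionOn with
        | h a =>
          change Quotient.mk S (a ++ []) = Quotient.mk S a
          rw [List.append_nil] }
  refine ⟨Quotient S, M, Quotient.mk S, rfl, fun v w => rfl, fun v w => ?_⟩
  exact ⟨fun hvw => Quotient.exact hvw, fun hvw => Quotient.sound hvw⟩

end Pool.Agent.Lib.SMO
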