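import Pool.Agent.Lib.SMO.SDefs
import Pool.Agent.Lib.SMO.SA
import Pool.Agent.Lib.SMO.SC
import Pool.Agent.Lib.SMO.SD

/-!
# Row SE. Collapse of the second level.
-/

set_option autoImplicit false

namespace Pool.Agent.Lib.SMO

private lemma se_ev_one {β G : Type*} [Group G] {f : β → G} (h : ∀ g, f g = 1)
    (w : List (β × Bool)) : ev f w = 1 := by
  unfold ev
  apply List.prod_eq_one
  intro x hx
  obtain ⟨a, -, rfl⟩ := List.mem_map.1 hx
  split_ifs <;> simp [h]

private lemma se_emb_cons {α : Type} (a : Gen α × Bool) (w : GW (Gen α)) :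
    emb (a :: w) = [Sum.inl a] ++ emb w := rfl

theorem collapse {α G : Type} [Group G] (R : List α → List α → Prop) (c0 : List α)
    (f : Gen (L2 α) → G) (z : G) (hf : ∀ p, Rel2 R c0 p → ev f p.1 = if p.2 then z else 1)
    {w u v : List α} (ha : ev f (amp (XW 0 1 w)) = 1) (hc : Conn R w (u ++ (c0 ++ v))) :
    (∀ g, f g = 1) ∧ z = 1 := by
  have h : St f := (St_iff f).2 fun w hw => by simpa using hf _ (Rel2.st w hw)
  obtain ⟨M, instM, q, q0, qm, qX⟩ := exists_monoid h
  have hinv : ∀ (g : Gen α) (b : Bool),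
      q [Sum.inl (g, b)] * q [Sum.inl (g, !b)] = 1 := by
    intro g b
    have h1 := hf _ (Rel2.inv g b)
    simp only [Bool.false_eq_true, if_false] at h1
    rw [ev_append, ev_winv, ev_XW, ev_XW, mul_inv_eq_one] at h1
    rw [← qm, ← q0, qX]
    exact h1
  let y : Gen α → Mˣ := fun g =>
    ⟨q [Sum.inl (g, true)], q [Sum.inl (g, false)], hinv g true, hinv g false⟩
  have hy : ∀ w : GW (Gen α), ((ev y w : Mˣ) : M) = q (emb w) := by
    intro w
    induction w with
    | nil => simp [ev, emb, q0]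
    | cons a w ih =>
      rw [se_emb_cons, qm, ← ih]
      have : ev y (a :: w) = (if a.2 then y a.1 else (y a.1)⁻¹) * ev y w := by simp [ev]
      rw [this, Units.val_mul]
      congr 1
      obtain ⟨g, b⟩ := a
      cases b
      · rfl
      · rfl
  have hrel : ∀ w, Rel1 R c0 w → ev y w = 1 := by
    intro w hw
    have h1 := hf _ (Rel2.rel w hw)
    simp only [Bool.false_eq_true, if_false] at h1
    rw [ev_append, ev_winv, ev_XW, ev_XW, mul_inv_eq_one] at h1
    apply Units.ext
    rw [hy, Units.val_one, ← q0, qX]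
    exact h1
  have hl := level1 R c0 hrel hc
  have hg : q (emb (XW 0 1 w)) = 1 := by rw [← hy, hl, Units.val_one]
  have hs : ∀ a : L2 α, X f 0 1 (a :: (emb (XW 0 1 w) ++ [a])) = X f 0 1 [a, a] := by
    intro a
    rw [← qX]
    have e1 : a :: (emb (XW 0 1 w) ++ [a]) = [a] ++ (emb (XW 0 1 w) ++ [a]) := rfl
    have e2 : [a, a] = [a] ++ [a] := rfl
    rw [e1, e2, qm, qm, qm, hg, one_mul]
  have h1 : f (0, 1, none) = 1 := by
    unfold amp at ha
    rw [ev_append, ev_append, ev_append, ev_append, ev_winv, ev_winv, ev_XW, ev_XW, ev_XW, ev_XW,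
      ev_XW, hs, hs] at ha
    simpa [X] using ha
  have hall : ∀ g, f g = 1 := h.gens_trivial h1
  refine ⟨hall, ?_⟩
  have h2 := hf _ Rel2.hz
  simp only [if_true] at h2
  rw [← h2]
  exact se_ev_one hall _

end Pool.Agent.Lib.SMO
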