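import Pool.Agent.Lib.SMO.CDefs
import Pool.Agent.Lib.SMO.SE
import Pool.Agent.Lib.SMO.ME
import Pool.Agent.Lib.SMO.CA
import Pool.Agent.Lib.SMO.CB

/-!
# Row CC (130 lines). The computable family.

Recipe. `Primcodable α` by `Primcodable.ofEquiv (Fin n)` (`Finite.exists_equiv_fin`). `β := Gen (L2 α)`, finite, `e : β ≃ Fin N`, `e' x := (e x : ℕ)`, `L` from `fixed_list`,
`F n := fam N e' L (amp (XW 0 1 (wn pre post b n)))`. Computable: `amp_primrec`, `cdw_primrec`, `Primrec.pair`, `Primrec.list_cons`, constants. `Wf`: `e' x < N`.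
`evw f (cdw e' w) = ev (f ∘ e') w` (`List.map_map`). Collapse: from `Sat (F n) f z` get the hypotheses of `collapse` for `f ∘ e'`, so `z = 1`, `f (e' x) = 1` for all `x`, and every `i < N` is some
`e' x`. Model: `f' : β → G` from `model`; `f i := if h : i < N then f' (e.symm ⟨i, h⟩) else 1`.
-/

set_option autoImplicit false

namespace Pool.Agent.Lib.SMO

private lemma evw_cdw {β : Type} {G : Type*} [Group G] (e : β → ℕ) (f : ℕ → G) (w : GW β) :
    evw f (cdw e w) = ev (f ∘ e) w := by
  simp only [evw, cdw, ev, List.map_map]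
  rfl

private lemma fam_rel {β : Type} {N : ℕ} {e : β → ℕ} {L : List (GW β × Bool)} {w : GW β}
    {r : Word × Bool} (h : r ∈ (fam N e L w).2.1) :
    r = (cdw e w, false) ∨ ∃ p ∈ L, r = (cdw e p.1, p.2) := by
  rcases List.mem_cons.mp h with h | h
  · exact Or.inl h
  · obtain ⟨p, hp, hr⟩ := List.mem_map.mp h
    exact Or.inr ⟨p, hp, hr.symm⟩

theorem family {α : Type} [Finite α] (R : List α → List α → Prop) (c0 pre post : List α) (b : α)
    (hR : {p : List α × List α | R p.1 p.2}.Finite) :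
    ∃ F : ℕ → Data, Computable F ∧ ∀ n, Wf (F n) ∧ (F n).2.1 ≠ [] ∧
      (F n).2.2 = 2 * (F n).2.1.length ∧
      ((∃ u v, Conn R (wn pre post b n) (u ++ (c0 ++ v))) →
        ∀ (G : Type) [Group G] (f : ℕ → G) (z : G), Sat (F n) f z →
          z = 1 ∧ ∀ i < (F n).1, f i = 1) ∧
      ((∃ (A : Type) (_ : Ring A) (μ : α → A), RingModel R c0 (wn pre post b n) A μ) →
        ∃ (G : Type) (_ : Group G) (_ : Finite G) (f : ℕ → G) (z : G), Sat (F n) f z ∧ z ≠ 1) := by
  classical
  obtain ⟨m, ⟨eα⟩⟩ := Finite.exists_equiv_fin α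
  letI : Primcodable α := Primcodable.ofEquiv (Fin m) eα
  obtain ⟨N, ⟨e⟩⟩ := Finite.exists_equiv_fin (Gen (L2 α))
  obtain ⟨L, hL⟩ := fixed_list R c0 hR
  let e' : Gen (L2 α) → ℕ := fun x => (e x : ℕ)
  have he' : ∀ x, e' x < N := fun x => (e x).2
  have hev : ∀ {G : Type} [Group G] (f : ℕ → G) (w : GW (Gen (L2 α))),
      evw f (cdw e' w) = ev (f ∘ e') w := fun f w => evw_cdw e' f w
  refine ⟨fun n => fam N e' L (amp (XW 0 1 (wn pre post b n))), ?_,
    fun n => ⟨?_, ?_, ?_, ?_, ?_⟩⟩
  · have h1 : Primrec fun n : ℕ => cdw e' (amp (XW 0 1 (wn pre post b n))) :=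
      (cdw_primrec e').comp (amp_primrec pre post b)
    have h2 : Primrec fun n : ℕ => ((N, (cdw e' (amp (XW 0 1 (wn pre post b n))), false) ::
        L.map (fun p => (cdw e' p.1, p.2)), 2 * (L.length + 1)) : Data) :=
      Primrec.pair (Primrec.const N) (Primrec.pair
        (Primrec.list_cons.comp (Primrec.pair h1 (Primrec.const false)) (Primrec.const _))
        (Primrec.const _))
    exact h2.to_comp
  · intro r hr a ha
    have key : ∀ w : GW (Gen (L2 α)), a ∈ cdw e' w → a.1 < N := by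
      intro w hw
      obtain ⟨x, _, hx⟩ := List.mem_map.mp hw
      rw [← hx]
      exact he' x.1
    rcases fam_rel hr with h | ⟨p, _, h⟩
    · subst h
      exact key _ ha
    · subst h
      exact key _ ha
  · exact List.cons_ne_nil _ _
  · simp only [fam, List.length_cons, List.length_map]
  · rintro ⟨u, v, hc⟩ G _ f z hs
    have hf : ∀ p, Rel2 R c0 p → ev (f ∘ e') p.1 = if p.2 then z else 1 := by
      intro p hp
      rw [← hev]
      exact hs.rel (cdw e' p.1, p.2)
        (List.mem_cons_of_mem _ (List.mem_map.mpr ⟨p, (hL p).mpr hp, rfl⟩))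
    have ha : ev (f ∘ e') (amp (XW 0 1 (wn pre post b n))) = 1 := by
      rw [← hev]
      have := hs.rel (cdw e' (amp (XW 0 1 (wn pre post b n))), false) (List.mem_cons_self ..)
      simpa using this
    obtain ⟨h1, h2⟩ := collapse R c0 (f ∘ e') z hf ha hc
    refine ⟨h2, fun i hi => ?_⟩
    have := h1 (e.symm ⟨i, hi⟩)
    simpa [e'] using this
  · rintro ⟨A, _, μ, hm⟩
    obtain ⟨G, iG, iF, f', z, hz, hz1, hcen, hrel, hamp⟩ := model R c0 _ μ hm
    let f : ℕ → G := fun i => if h : i < N then f' (e.symm ⟨i, h⟩) else 1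
    have hfe : f ∘ e' = f' := by
      funext x
      have : e' x < N := he' x
      simp [f, e']
    refine ⟨G, iG, iF, f, z, ⟨hz, ?_, ?_⟩, hz1⟩
    · intro i hi
      have hi' : i < N := hi
      simp only [f, dif_pos hi']
      exact hcen _
    · intro r hr
      rcases fam_rel hr with h | ⟨p, hp, h⟩
      · subst h
        rw [hev, hfe]
        simpa using hamp
      · subst h
        rw [hev, hfe]
        exact hrel p ((hL p).mp hp)

end Pool.Agent.Lib.SMO
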