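import Pool.Agent.Lib.SMO.SDefs

/-!
# Stack machines and matrices
-/

set_option autoImplicit false

namespace Pool.Agent.Lib.SMO

/-! ## Stack machines -/

/-- Instructions of a machine with states `Q`, stacks `K` and stack alphabet `Γ`. -/
inductive Instr (Q K Γ : Type)
  | jump (q : Q)
  | push (k : K) (a : Γ) (q : Q)
  | peek (k : K) (f : Option Γ → Q)
  | pop (k : K) (f : Option Γ → Q)
  | halt

/-- Configurations. -/
abbrev Cf (Q K Γ : Type) := Q × (K → List Γ)

/-- One step. -/
def stp {Q K Γ : Type} [DecidableEq K] (M : Q → Instr Q K Γ) (c : Cf Q K Γ) : Option (Cf Q K Γ) :=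
  match M c.1 with
  | .jump q => some (q, c.2)
  | .push k a q => some (q, Function.update c.2 k (a :: c.2 k))
  | .peek k f => some (f (c.2 k).head?, c.2)
  | .pop k f => some (f (c.2 k).head?, Function.update c.2 k (c.2 k).tail)
  | .halt => none

/-- Exactly `n` steps lead from `c` to `c'`. -/
def Runs {Q K Γ : Type} [DecidableEq K] (M : Q → Instr Q K Γ) : ℕ → Cf Q K Γ → Cf Q K Γ → Prop
  | 0, c, c' => c = c'
  | n + 1, c, c' => ∃ d, stp M c = some d ∧ Runs M n d c'

/-- Letters: the clock, the states, the stack symbols (`none` is the bottom of a stack). -/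
inductive Lt (Q K Γ : Type)
  | tick
  | st (q : Q)
  | sl (k : K) (o : Option Γ)

/-- The monomial relations of a machine. -/
inductive Rule {Q K Γ : Type} (M : Q → Instr Q K Γ) : List (Lt Q K Γ) → List (Lt Q K Γ) → Prop
  | comm (k k' : K) (o o' : Option Γ) (h : k ≠ k') : Rule M [.sl k o, .sl k' o'] [.sl k' o', .sl k o]
  | jump (q q' : Q) (h : M q = .jump q') : Rule M [.st q] [.tick, .st q']
  | push (q : Q) (k : K) (a : Γ) (q' : Q) (h : M q = .push k a q') :
      Rule M [.st q] [.tick, .st q', .sl k (some a)]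
  | peek (q : Q) (k : K) (f : Option Γ → Q) (o : Option Γ) (h : M q = .peek k f) :
      Rule M [.st q, .sl k o] [.tick, .st (f o), .sl k o]
  | pop (q : Q) (k : K) (f : Option Γ → Q) (a : Γ) (h : M q = .pop k f) :
      Rule M [.st q, .sl k (some a)] [.tick, .st (f (some a))]
  | pop0 (q : Q) (k : K) (f : Option Γ → Q) (h : M q = .pop k f) :
      Rule M [.st q, .sl k none] [.tick, .st (f none), .sl k none]

/-- The word of one stack. -/
def sw {Q K Γ : Type} (k : K) (s : List Γ) : List (Lt Q K Γ) :=
  (s.map fun a => Lt.sl k (some a)) ++ [Lt.sl k none]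

/-- The word of a configuration; `ks` enumerates the stacks. -/
def cw {Q K Γ : Type} (ks : List K) (c : Cf Q K Γ) : List (Lt Q K Γ) :=
  Lt.st c.1 :: ks.flatMap fun k => sw k (c.2 k)

/-! ## Matrices -/

/-- The transvections. -/
noncomputable def tv {A : Type} [Ring A] (i j : Fin 6) (a : A) : (Matrix (Fin 6) (Fin 6) A)ˣ :=
  if h : i = j then 1 else
    ⟨1 + Matrix.single i j a, 1 - Matrix.single i j a, by
      have h0 : Matrix.single i j a * Matrix.single i j a = 0 :=
        Matrix.single_mul_single_of_ne _ _ _ _ (Ne.symm h) _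
      noncomm_ring
      rw [h0]
      simp, by
      have h0 : Matrix.single i j a * Matrix.single i j a = 0 :=
        Matrix.single_mul_single_of_ne _ _ _ _ (Ne.symm h) _
      noncomm_ring
      rw [h0]
      simp⟩

/-- The generators of the Steinberg group as transvections. -/
noncomputable def gm {α A : Type} [Ring A] (μ : α → A) (g : Gen α) : (Matrix (Fin 6) (Fin 6) A)ˣ :=
  tv g.1 g.2.1 (g.2.2.elim 1 μ)

end Pool.Agent.Lib.SMO
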