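import Pool.Agent.Lib.SMO.Defs
import Pool.Agent.Lib.SMO.MDefs

/-!
# The universal function, coding
-/

set_option autoImplicit false

namespace Pool.Agent.Lib.SMO

/-- The diagonal of the universal function. -/
noncomputable def U (n : ℕ) : Part ℕ := Nat.Partrec.Code.eval (Denumerable.ofNat Nat.Partrec.Code n) n

/-- The word number `n`. -/
def wn {α : Type} (pre post : List α) (b : α) (n : ℕ) : List α := pre ++ (List.replicate n b ++ post)

/-- The coded word. -/
def cdw {β : Type} (e : β → ℕ) (w : GW β) : Word := w.map fun a => (e a.1, a.2)

/-- The handle data: `N` generators, the fixed relators, one more relator `w`. -/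
def fam {β : Type} (N : ℕ) (e : β → ℕ) (fixed : List (GW β × Bool)) (w : GW β) : Data :=
  (N, (cdw e w, false) :: fixed.map (fun p => (cdw e p.1, p.2)), 2 * (fixed.length + 1))

end Pool.Agent.Lib.SMO
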