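import Mathlib

/-!
# Handle data of closed four-manifolds

`D : Data` is the number of one-handles of an orientable five-dimensional handlebody `W` with one-handles
and two-handles, the list of the attaching words of the two-handles with their framings mod 2 (`false`:
the spin structure of the union of the one-handles extends over the two-handle), and a number `e`. `W` is
homotopy equivalent to the presentation complex of the words. `X D` is the connected sum of the boundary of
`W` with `e` copies of the `E₈`-manifold, a closed oriented topological four-manifold.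
-/

set_option autoImplicit false

namespace Pool.Agent.Lib.SMO

open Equiv

/-- A word in the generators: indices and signs. -/
abbrev Word := List (ℕ × Bool)

/-- The number of the one-handles; the attaching words and framings of the two-handles; the number of
copies of the `E₈`-manifold. -/
abbrev Data := ℕ × List (Word × Bool) × ℕ

/-- Only the letters `0, 1, …, D.1 - 1` occur. -/
def Wf (D : Data) : Prop := ∀ r ∈ D.2.1, ∀ a ∈ r.1, a.1 < D.1

/-- The element of the free group given by a word. -/
def toFree (w : Word) : FreeGroup ℕ :=
  (w.map fun a => if a.2 then FreeGroup.of a.1 else (FreeGroup.of a.1)⁻¹).prod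

/-- The fundamental group of `X D`: generators `0, 1, …, D.1 - 1`, relators the attaching words. -/
abbrev Pi1 (D : Data) : Type :=
  PresentedGroup ({y | ∃ i, D.1 ≤ i ∧ y = FreeGroup.of i} ∪ {y | ∃ r ∈ D.2.1, y = toFree r.1})

variable {T : Type}

/-- Permutations `ρ i` of the set `T` of sheets; the lift of a word starting at the sheet `s` passes
through these signed edges; `(t, i)` is the edge from `t` to `ρ i t`. -/
def edges (ρ : ℕ → Perm T) : Word → T → List ((T × ℕ) × Bool)
  | [], _ => []
  | (i, true) :: w, s => ((s, i), true) :: edges ρ w (ρ i s)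
  | (i, false) :: w, s => (((ρ i).symm s, i), false) :: edges ρ w ((ρ i).symm s)

/-- The last sheet of the lift of a word starting at `s`. -/
def stop (ρ : ℕ → Perm T) : Word → T → T
  | [], s => s
  | (i, true) :: w, s => stop ρ w (ρ i s)
  | (i, false) :: w, s => stop ρ w ((ρ i).symm s)

/-- `ρ` describes a connected covering of `X D` whose set of sheets is `T`. -/
structure IsCover (D : Data) (ρ : ℕ → Perm T) : Prop where
  closed : ∀ r ∈ D.2.1, ∀ s, stop ρ r.1 s = s
  nonempty : Nonempty T
  conn : ∀ s t, ∃ w : Word, (∀ a ∈ w, a.1 < D.1) ∧ stop ρ w s = t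

/-- The second Stiefel-Whitney class of the covering vanishes: the framings of the lifted two-handles
are the coboundary of a cochain on the lifted one-handles. -/
def Spin (D : Data) (ρ : ℕ → Perm T) : Prop :=
  ∃ c : T × ℕ → ZMod 2, ∀ r ∈ D.2.1, ∀ s,
    ((edges ρ r.1 s).map fun e => c e.1).sum = if r.2 then 1 else 0

open Classical in
/-- The cellular boundary of the lifted two-cells, with rational coefficients. -/
noncomputable def bd (D : Data) (ρ : ℕ → Perm T) [Fintype T] :
    (Fin D.2.1.length × T → ℚ) →ₗ[ℚ] (T × ℕ → ℚ) where
  toFun f e := ∑ p : Fin D.2.1.length × T,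
    f p * ((edges ρ (D.2.1.get p.1).1 p.2).map fun a =>
      if a.1 = e then (if a.2 then (1 : ℚ) else -1) else 0).sum
  map_add' f g := by
    ext e
    simp only [Pi.add_apply, add_mul, Finset.sum_add_distrib]
  map_smul' q f := by
    ext e
    simp only [Pi.smul_apply, smul_eq_mul, mul_assoc, Finset.mul_sum, RingHom.id_apply]

/-- The second Betti number of the covering of `X D`: twice the one of the covering of the presentation
complex (the covering of the boundary of `W`), and eight for each copy of the `E₈`-manifold. -/
noncomputable def b2 (D : Data) (ρ : ℕ → Perm T) [Fintype T] : ℕ :=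
  2 * Module.finrank ℚ (LinearMap.ker (bd D ρ)) + 8 * D.2.2 * Fintype.card T

/-- The signature of the covering of `X D`. -/
def sig (D : Data) (T : Type) [Fintype T] : ℕ := 8 * D.2.2 * Fintype.card T

/-- `X D` is simply connected and not spin. -/
def SimplyConnectedNonspin (D : Data) : Prop :=
  Subsingleton (Pi1 D) ∧ ¬ Spin D (fun _ => Equiv.refl Unit)

/-- Some finite connected covering of `X D` is spin and violates `b₂ ≥ 10/8 |σ|`. -/
def SpinCoverBelowTenEighths (D : Data) : Prop :=
  ∃ (T : Type) (_ : Fintype T) (ρ : ℕ → Perm T), IsCover D ρ ∧ Spin D ρ ∧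
    (b2 D ρ : ℚ) < 10 / 8 * sig D T

/-! ## The central extension -/

/-- The value of a word. -/
def evw {G : Type*} [Group G] (f : ℕ → G) (w : Word) : G :=
  (w.map fun a => if a.2 then f a.1 else (f a.1)⁻¹).prod

/-- `f` and `z` satisfy the relations `z² = 1`, `z` central, `r = z ^ w`. -/
structure Sat {G : Type*} [Group G] (D : Data) (f : ℕ → G) (z : G) : Prop where
  sq : z * z = 1
  cen : ∀ i < D.1, Commute z (f i)
  rel : ∀ r ∈ D.2.1, evw f r.1 = if r.2 then z else 1

end Pool.Agent.Lib.SMO
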