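import Pool.Agent.Lib.SMO.SDefs

/-!
# Row SY. The syntactic ring of a finite language.
-/

set_option autoImplicit false

namespace Pool.Agent.Lib.SMO

/-- The functions vanishing on long words, compatible with the rules and zero on the multiples of
`c0`. -/
private def SV {α : Type} (R : List α → List α → Prop) (c0 : List α) (L : ℕ) :
    Submodule (ZMod 2) (List α → ZMod 2) where
  carrier := {f | (∀ v, L < v.length → f v = 0) ∧
    (∀ l r, R l r → ∀ u v, f (u ++ (l ++ v)) = f (u ++ (r ++ v))) ∧
    ∀ u v, f (u ++ (c0 ++ v)) = 0}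
  add_mem' := by
    rintro f g ⟨hf1, hf2, hf3⟩ ⟨hg1, hg2, hg3⟩
    refine ⟨fun v hv => ?_, fun l r h u v => ?_, fun u v => ?_⟩
    · simp [hf1 v hv, hg1 v hv]
    · simp only [Pi.add_apply]
      rw [hf2 l r h u v, hg2 l r h u v]
    · simp [hf3 u v, hg3 u v]
  zero_mem' := ⟨fun _ _ => rfl, fun _ _ _ _ _ => rfl, fun _ _ => rfl⟩
  smul_mem' := by
    rintro c f ⟨hf1, hf2, hf3⟩
    refine ⟨fun v hv => ?_, fun l r h u v => ?_, fun u v => ?_⟩
    · simp [hf1 v hv]
    · simp only [Pi.smul_apply]
      rw [hf2 l r h u v]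
    · simp [hf3 u v]

/-- The operator of a letter: translation. -/
private def so {α : Type} (R : List α → List α → Prop) (c0 : List α) (L : ℕ) (s : α) :
    Module.End (ZMod 2) (SV R c0 L) where
  toFun f := ⟨fun v => f.1 (v ++ [s]), by
    obtain ⟨f, hf1, hf2, hf3⟩ := f
    refine ⟨fun v hv => ?_, fun l r h u v => ?_, fun u v => ?_⟩
    · apply hf1
      rw [List.length_append]
      omega
    · simpa only [List.append_assoc] using hf2 l r h u (v ++ [s])
    · simpa only [List.append_assoc] using hf3 u (v ++ [s])⟩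
  map_add' f g := rfl
  map_smul' c f := rfl

private lemma so_prod {α : Type} (R : List α → List α → Prop) (c0 : List α) (L : ℕ) (w : List α) :
    ∀ (f : SV R c0 L) (v : List α), (((w.map (so R c0 L)).prod f).1) v = f.1 (v ++ w) := by
  induction w with
  | nil => intro f v; simp
  | cons s w ih =>
    intro f v
    rw [List.map_cons, List.prod_cons]
    change (((w.map (so R c0 L)).prod f).1) (v ++ [s]) = _
    rw [ih f (v ++ [s]), List.append_assoc, List.singleton_append]

theorem syntactic {α : Type} [Finite α] (R : List α → List α → Prop) (c0 w : List α)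
    (C : Set (List α)) (L : ℕ) (hL : ∀ v ∈ C, v.length ≤ L)
    (hR : ∀ l r, R l r → ∀ u v, u ++ (l ++ v) ∈ C ↔ u ++ (r ++ v) ∈ C)
    (h0 : ∀ u v, u ++ (c0 ++ v) ∉ C) (hw : w ∈ C) :
    ∃ (A : Type) (_ : Ring A) (μ : α → A), RingModel R c0 w A μ := by
  classical
  have hfinV : Finite (SV R c0 L) := by
    have hS : Finite {v : List α | v.length ≤ L} := (List.finite_length_le α L).to_subtype
    refine Finite.of_injective
      (fun f : SV R c0 L => fun v : {v : List α | v.length ≤ L} => f.1 v.1) ?_
    intro f g h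
    apply Subtype.ext
    funext v
    by_cases hv : v.length ≤ L
    · exact congrFun h ⟨v, hv⟩
    · rw [f.2.1 v (not_le.1 hv), g.2.1 v (not_le.1 hv)]
  refine ⟨Module.End (ZMod 2) (SV R c0 L), inferInstance, so R c0 L, ?_, ?_, ?_, ?_, ?_⟩
  · exact Finite.of_injective (fun g : Module.End (ZMod 2) (SV R c0 L) => (g : SV R c0 L → SV R c0 L))
      DFunLike.coe_injective
  · rw [← map_ofNat (algebraMap (ZMod 2) (Module.End (ZMod 2) (SV R c0 L))) 2,
      show (OfNat.ofNat 2 : ZMod 2) = 0 from rfl, map_zero]
  · intro l r h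
    apply LinearMap.ext
    intro f
    apply Subtype.ext
    funext v
    rw [so_prod, so_prod]
    simpa using f.2.2.1 l r h v []
  · apply LinearMap.ext
    intro f
    apply Subtype.ext
    funext v
    rw [so_prod]
    simpa using f.2.2.2 v []
  · intro h
    let f : SV R c0 L := ⟨fun v => if v ∈ C then 1 else 0, by
      refine ⟨fun v hv => ?_, fun l r h u v => ?_, fun u v => ?_⟩
      · refine if_neg fun h => ?_
        have := hL v h
        omega
      · have := hR l r h u v
        by_cases h1 : u ++ (l ++ v) ∈ C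
        · exact (if_pos h1).trans (if_pos (this.1 h1)).symm
        · exact (if_neg h1).trans (if_neg (fun h2 => h1 (this.2 h2))).symm
      · exact if_neg (h0 u v)⟩
    have h1 := so_prod R c0 L w f []
    rw [h] at h1
    have h2 : f.1 ([] ++ w) = 1 := if_pos hw
    rw [h2] at h1
    exact zero_ne_one h1

end Pool.Agent.Lib.SMO
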