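import Pool.Agent.Lib.SMO.MDefs
import Pool.Agent.Lib.SMO.SY

/-!
# The language of a halting computation
-/

set_option autoImplicit false

namespace Pool.Agent.Lib.SMO

/-- States of the decoder. -/
private inductive DS (Q K Γ : Type)
  | bad
  | build (S : K → Option (List Γ))
  | run (t : ℕ) (q : Q) (S : K → List Γ)

/-- Put a symbol on a stack. -/
private def putS {K Γ : Type} [DecidableEq K] {Q : Type} (k : K) (o : Option Γ)
    (S : K → Option (List Γ)) : DS Q K Γ :=
  match o, S k with
  | none, none => .build (Function.update S k (some []))
  | some a, some s => .build (Function.update S k (some (a :: s)))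
  | _, _ => .bad

open Classical in
/-- The action of a letter. -/
private noncomputable def act {Q K Γ : Type} [DecidableEq K] : Lt Q K Γ → DS Q K Γ → DS Q K Γ
  | .tick, .run t q S => .run (t + 1) q S
  | .st q, .build S => if ∀ k, S k ≠ none then .run 0 q (fun k => (S k).getD []) else .bad
  | .sl k o, .build S => putS k o S
  | _, _ => .bad

private noncomputable def dec {Q K Γ : Type} [DecidableEq K] (w : List (Lt Q K Γ))
    (d : DS Q K Γ) : DS Q K Γ := w.foldr act d

private lemma dec_append {Q K Γ : Type} [DecidableEq K] (u v : List (Lt Q K Γ))
    (d : DS Q K Γ) : dec (u ++ v) d = dec u (dec v d) := by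
  unfold dec
  rw [List.foldr_append]

private lemma dec_cons {Q K Γ : Type} [DecidableEq K] (a : Lt Q K Γ) (v : List (Lt Q K Γ))
    (d : DS Q K Γ) : dec (a :: v) d = act a (dec v d) := rfl

private lemma dec_nil {Q K Γ : Type} [DecidableEq K] (d : DS Q K Γ) : dec [] d = d := rfl

private lemma act_bad {Q K Γ : Type} [DecidableEq K] (a : Lt Q K Γ) :
    act a (.bad : DS Q K Γ) = .bad := by
  cases a <;> rfl

private lemma dec_bad {Q K Γ : Type} [DecidableEq K] (w : List (Lt Q K Γ)) :
    dec w (.bad : DS Q K Γ) = .bad := by
  induction w with
  | nil => rfl
  | cons a w ih => rw [dec_cons, ih, act_bad]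

private lemma act_st_run {Q K Γ : Type} [DecidableEq K] (q' : Q) (t : ℕ) (q : Q)
    (S : K → List Γ) : act (.st q') (.run t q S : DS Q K Γ) = .bad := rfl

private lemma act_sl_run {Q K Γ : Type} [DecidableEq K] (k : K) (o : Option Γ) (t : ℕ) (q : Q)
    (S : K → List Γ) : act (.sl k o) (.run t q S : DS Q K Γ) = .bad := rfl

private lemma act_tick_run {Q K Γ : Type} [DecidableEq K] (t : ℕ) (q : Q)
    (S : K → List Γ) : act .tick (.run t q S : DS Q K Γ) = .run (t + 1) q S := rfl

private lemma act_tick_build {Q K Γ : Type} [DecidableEq K]
    (S : K → Option (List Γ)) : act .tick (.build S : DS Q K Γ) = .bad := rfl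

private lemma act_sl_build {Q K Γ : Type} [DecidableEq K] (k : K) (o : Option Γ)
    (S : K → Option (List Γ)) : act (.sl k o) (.build S : DS Q K Γ) = putS k o S := rfl

private lemma act_st_build {Q K Γ : Type} [DecidableEq K] (q : Q)
    (S : K → Option (List Γ)) (h : ∀ k, S k ≠ none) :
    act (.st q) (.build S : DS Q K Γ) = .run 0 q (fun k => (S k).getD []) := by
  simp only [act]
  rw [if_pos h]

private lemma act_st_build' {Q K Γ : Type} [DecidableEq K] (q : Q)
    (S : K → Option (List Γ)) (h : ¬ ∀ k, S k ≠ none) :
    act (.st q) (.build S : DS Q K Γ) = .bad := by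
  simp only [act]
  rw [if_neg h]

/-- One side of a rule goes to the other. -/
private inductive Eqv {Q K Γ : Type} [DecidableEq K] (M : Q → Instr Q K Γ) :
    DS Q K Γ → DS Q K Γ → Prop
  | refl (d : DS Q K Γ) : Eqv M d d
  | step (t : ℕ) (q q' : Q) (S S' : K → List Γ) (h : stp M (q, S) = some (q', S')) :
      Eqv M (.run t q S) (.run (t + 1) q' S')

private lemma Eqv.act {Q K Γ : Type} [DecidableEq K] {M : Q → Instr Q K Γ} {d d' : DS Q K Γ}
    (h : Eqv M d d') (a : Lt Q K Γ) : Eqv M (act a d) (SMO.act a d') := by
  cases h with
  | refl => exact .refl _
  | step t q q' S S' h =>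
    cases a with
    | tick => exact .step _ _ _ _ _ h
    | st q => exact .refl _
    | sl k o => exact .refl _

private lemma Eqv.dec {Q K Γ : Type} [DecidableEq K] {M : Q → Instr Q K Γ} {d d' : DS Q K Γ}
    (h : Eqv M d d') (u : List (Lt Q K Γ)) : Eqv M (dec u d) (SMO.dec u d') := by
  induction u with
  | nil => exact h
  | cons a u ih => exact ih.act a

/-- The good states. -/
private def good {Q K Γ : Type} [DecidableEq K] (M : Q → Instr Q K Γ) (c : Cf Q K Γ) (T : ℕ) :
    DS Q K Γ → Prop
  | .run t q S => t ≤ T ∧ Runs M (T - t) (q, S) c
  | _ => False

private lemma good_iff {Q K Γ : Type} [DecidableEq K] {M : Q → Instr Q K Γ} {c : Cf Q K Γ} {T : ℕ}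
    (hH : M c.1 = .halt) {d d' : DS Q K Γ} (h : Eqv M d d') : good M c T d ↔ good M c T d' := by
  cases h with
  | refl => exact Iff.rfl
  | step t q q' S S' h =>
    show (t ≤ T ∧ Runs M (T - t) (q, S) c) ↔ (t + 1 ≤ T ∧ Runs M (T - (t + 1)) (q', S') c)
    rcases lt_trichotomy t T with ht | ht | ht
    · have e : T - t = (T - (t + 1)) + 1 := by omega
      rw [e]
      constructor
      · rintro ⟨_, d, h1, h2⟩
        rw [h] at h1
        cases h1
        exact ⟨ht, h2⟩
      · rintro ⟨_, h2⟩
        exact ⟨ht.le, _, h, h2⟩
    · constructor
      · rintro ⟨_, h2⟩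
        exfalso
        rw [ht, Nat.sub_self] at h2
        have h3 : (q, S) = c := h2
        subst h3
        have h4 : stp M (q, S) = none := by
          unfold stp
          rw [hH]
        rw [h4] at h
        cases h
      · rintro ⟨h1, _⟩
        omega
    · constructor
      · rintro ⟨h1, _⟩
        omega
      · rintro ⟨h1, _⟩
        omega

private lemma put_comm {Q K Γ : Type} [DecidableEq K] (k k' : K) (o o' : Option Γ) (h : k ≠ k')
    (S : K → Option (List Γ)) :
    act (.sl k o) (putS k' o' S : DS Q K Γ) = act (.sl k' o') (putS k o S) := by
  have h' : k' ≠ k := Ne.symm h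
  rcases o with _ | a <;> rcases o' with _ | a' <;> rcases e : S k with _ | s <;>
    rcases e' : S k' with _ | s' <;>
    simp [putS, act, e, e', Function.update_of_ne h, Function.update_of_ne h',
      Function.update_comm h]

private lemma eqv_rule {Q K Γ : Type} [DecidableEq K] (M : Q → Instr Q K Γ)
    (l r : List (Lt Q K Γ)) (h : Rule M l r) (d : DS Q K Γ) : Eqv M (dec l d) (dec r d) := by
  rcases d with _ | S | ⟨t, q, S⟩
  · rw [dec_bad, dec_bad]
    exact .refl _
  · cases h with
    | comm k k' o o' h =>
      simp only [dec_cons, dec_nil, act_sl_build]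
      rw [put_comm k k' o o' h]
      exact .refl _
    | jump q q' h =>
      simp only [dec_cons, dec_nil]
      by_cases hc : ∀ k, S k ≠ none
      · rw [act_st_build _ _ hc, act_st_build _ _ hc, act_tick_run]
        refine .step _ _ _ _ _ ?_
        simp [stp, h]
      · rw [act_st_build' _ _ hc, act_st_build' _ _ hc, act_bad]
        exact .refl _
    | push q k a q' h =>
      simp only [dec_cons, dec_nil, act_sl_build]
      rcases e : S k with _ | s
      · have hc : ¬ ∀ k, S k ≠ none := fun h => h k e
        rw [act_st_build' _ _ hc]
        simp only [putS, e, act_bad]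
        exact .refl _
      · have e2 : (putS k (some a) S : DS Q K Γ) =
            .build (Function.update S k (some (a :: s))) := by
          simp only [putS, e]
        rw [e2]
        by_cases hc : ∀ k, S k ≠ none
        · have hc' : ∀ j, Function.update S k (some (a :: s)) j ≠ none := by
            intro j
            by_cases hj : j = k
            · subst hj
              simp
            · rw [Function.update_of_ne hj]
              exact hc j
          rw [act_st_build _ _ hc, act_st_build _ _ hc', act_tick_run]
          refine .step _ _ _ _ _ ?_
          simp only [stp, h, Option.some.injEq, Prod.mk.injEq, true_and]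
          funext j
          by_cases hj : j = k
          · subst hj
            simp [e]
          · simp [Function.update_of_ne hj]
        · have hc' : ¬ ∀ j, Function.update S k (some (a :: s)) j ≠ none := by
            intro h1
            apply hc
            intro j
            by_cases hj : j = k
            · subst hj
              rw [e]
              simp
            · have := h1 j
              rwa [Function.update_of_ne hj] at this
          rw [act_st_build' _ _ hc, act_st_build' _ _ hc', act_bad]
          exact .refl _
    | peek q k f o h =>
      simp only [dec_cons, dec_nil, act_sl_build]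
      have key : (putS k o S : DS Q K Γ) = .bad ∨ ∃ S2 : K → Option (List Γ),
          (putS k o S : DS Q K Γ) = .build S2 ∧ ((S2 k).getD []).head? = o := by
        rcases o with _ | a <;> rcases e : S k with _ | s <;> simp [putS, e]
      rcases key with key | ⟨S2, key, hk⟩
      · rw [key]
        simp only [act_bad]
        exact .refl _
      · rw [key]
        by_cases hc : ∀ k, S2 k ≠ none
        · rw [act_st_build _ _ hc, act_st_build _ _ hc, act_tick_run]
          refine .step _ _ _ _ _ ?_
          simp [stp, h, hk]
        · rw [act_st_build' _ _ hc, act_st_build' _ _ hc, act_bad]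
          exact .refl _
    | pop q k f a h =>
      simp only [dec_cons, dec_nil, act_sl_build]
      rcases e : S k with _ | s
      · have hc : ¬ ∀ k, S k ≠ none := fun h => h k e
        rw [act_st_build' _ _ hc]
        simp only [putS, e, act_bad]
        exact .refl _
      · have e2 : (putS k (some a) S : DS Q K Γ) =
            .build (Function.update S k (some (a :: s))) := by
          simp only [putS, e]
        rw [e2]
        by_cases hc : ∀ k, S k ≠ none
        · have hc' : ∀ j, Function.update S k (some (a :: s)) j ≠ none := by
            intro j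
            by_cases hj : j = k
            · subst hj
              simp
            · rw [Function.update_of_ne hj]
              exact hc j
          rw [act_st_build _ _ hc, act_st_build _ _ hc', act_tick_run]
          refine .step _ _ _ _ _ ?_
          simp only [stp, h, Option.some.injEq, Prod.mk.injEq, Function.update_self,
            Option.getD_some, List.head?_cons, List.tail_cons, true_and]
          funext j
          by_cases hj : j = k
          · subst hj
            simp [e]
          · simp [Function.update_of_ne hj]
        · have hc' : ¬ ∀ j, Function.update S k (some (a :: s)) j ≠ none := by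
            intro h1
            apply hc
            intro j
            by_cases hj : j = k
            · subst hj
              rw [e]
              simp
            · have := h1 j
              rwa [Function.update_of_ne hj] at this
          rw [act_st_build' _ _ hc, act_st_build' _ _ hc', act_bad]
          exact .refl _
    | pop0 q k f h =>
      simp only [dec_cons, dec_nil, act_sl_build]
      rcases e : S k with _ | s
      · have e2 : (putS k none S : DS Q K Γ) = .build (Function.update S k (some [])) := by
          simp only [putS, e]
        rw [e2]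
        by_cases hc : ∀ j, Function.update S k (some []) j ≠ none
        · rw [act_st_build _ _ hc, act_st_build _ _ hc, act_tick_run]
          refine .step _ _ _ _ _ ?_
          simp only [stp, h, Option.some.injEq, Prod.mk.injEq, Function.update_self,
            Option.getD_some, List.head?_nil, List.tail_nil, true_and]
          funext j
          by_cases hj : j = k
          · subst hj
            simp
          · simp [Function.update_of_ne hj]
        · rw [act_st_build' _ _ hc, act_st_build' _ _ hc, act_bad]
          exact .refl _
      · simp only [putS, e, act_bad]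
        exact .refl _
  · cases h with
    | comm k k' o o' h =>
      simp only [dec_cons, dec_nil, act_sl_run, act_bad]
      exact .refl _
    | jump q q' h =>
      simp only [dec_cons, dec_nil, act_st_run, act_bad]
      exact .refl _
    | push q k a q' h =>
      simp only [dec_cons, dec_nil, act_st_run, act_sl_run, act_bad]
      exact .refl _
    | peek q k f o h =>
      simp only [dec_cons, dec_nil, act_sl_run, act_bad]
      exact .refl _
    | pop q k f a h =>
      simp only [dec_cons, dec_nil, act_st_run, act_sl_run, act_bad]
      exact .refl _
    | pop0 q k f h =>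
      simp only [dec_cons, dec_nil, act_sl_run, act_bad]
      exact .refl _

/-! ## Length -/

private def osz {Γ : Type} : Option (List Γ) → ℕ
  | none => 0
  | some s => s.length + 1

private def sz {Q K Γ : Type} [Fintype K] : DS Q K Γ → ℕ
  | .bad => 0
  | .build S => ∑ k, osz (S k)
  | .run t _ S => t + 1 + ∑ k, ((S k).length + 1)

private lemma sum_update {K : Type} [Fintype K] [DecidableEq K] {β : Type} (f : β → ℕ)
    (S : K → β) (k : K) (x : β) :
    ∑ j, f (Function.update S k x j) + f (S k) = ∑ j, f (S j) + f x := by
  rw [← Finset.add_sum_erase Finset.univ (fun j => f (Function.update S k x j))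
      (Finset.mem_univ k), ← Finset.add_sum_erase Finset.univ (fun j => f (S j))
      (Finset.mem_univ k)]
  have : ∑ j ∈ Finset.univ.erase k, f (Function.update S k x j) =
      ∑ j ∈ Finset.univ.erase k, f (S j) := by
    refine Finset.sum_congr rfl fun j hj => ?_
    rw [Function.update_of_ne (Finset.ne_of_mem_erase hj)]
  rw [this]
  simp only [Function.update_self]
  omega

private lemma sz_put {Q K Γ : Type} [Fintype K] [DecidableEq K] (k : K) (o : Option Γ)
    (S : K → Option (List Γ)) (h : (putS k o S : DS Q K Γ) ≠ .bad) :
    sz (putS k o S : DS Q K Γ) = ∑ j, osz (S j) + 1 := by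
  rcases o with _ | a
  · rcases e : S k with _ | s
    · have e2 : (putS k none S : DS Q K Γ) = .build (Function.update S k (some [])) := by
        simp only [putS, e]
      rw [e2]
      have := sum_update (osz (Γ := Γ)) S k (some [])
      rw [e] at this
      have h1 : osz (none : Option (List Γ)) = 0 := rfl
      have h2 : osz (some ([] : List Γ)) = 1 := rfl
      rw [h1, h2] at this
      show ∑ j, osz (Function.update S k (some []) j) = _
      omega
    · exact absurd (by simp only [putS, e]) h
  · rcases e : S k with _ | s
    · exact absurd (by simp only [putS, e]) h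
    · have e2 : (putS k (some a) S : DS Q K Γ) =
          .build (Function.update S k (some (a :: s))) := by
        simp only [putS, e]
      rw [e2]
      have := sum_update (osz (Γ := Γ)) S k (some (a :: s))
      rw [e] at this
      have h1 : osz (some s) = s.length + 1 := rfl
      have h2 : osz (some (a :: s)) = s.length + 1 + 1 := rfl
      rw [h1, h2] at this
      show ∑ j, osz (Function.update S k (some (a :: s)) j) = _
      omega

private lemma sz_act {Q K Γ : Type} [Fintype K] [DecidableEq K] (a : Lt Q K Γ)
    (d : DS Q K Γ) (h : act a d ≠ .bad) : sz (act a d) = sz d + 1 := by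
  rcases d with _ | S | ⟨t, q, S⟩
  · exact absurd (act_bad a) h
  · rcases a with _ | q | ⟨k, o⟩
    · exact absurd rfl h
    · by_cases hc : ∀ k, S k ≠ none
      · rw [act_st_build _ _ hc]
        show 0 + 1 + ∑ k, (((S k).getD []).length + 1) = ∑ k, osz (S k) + 1
        have : ∑ k, (((S k).getD []).length + 1) = ∑ k, osz (S k) := by
          refine Finset.sum_congr rfl fun k _ => ?_
          rcases e : S k with _ | s
          · exact absurd e (hc k)
          · rfl
        omega
      · exact absurd (act_st_build' _ _ hc) h
    · exact sz_put k o S h
  · rcases a with _ | q | ⟨k, o⟩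
    · show t + 1 + 1 + _ = t + 1 + _ + 1
      omega
    · exact absurd rfl h
    · exact absurd rfl h

private lemma sz_dec {Q K Γ : Type} [Fintype K] [DecidableEq K] (w : List (Lt Q K Γ))
    (d : DS Q K Γ) (h : dec w d ≠ .bad) : sz (dec w d) = sz d + w.length := by
  induction w with
  | nil => rfl
  | cons a w ih =>
    rw [dec_cons] at h ⊢
    have h1 : dec w d ≠ .bad := by
      intro h1
      rw [h1, act_bad] at h
      exact h rfl
    rw [sz_act _ _ h, ih h1, List.length_cons]
    omega

private lemma stp_sz {Q K Γ : Type} [Fintype K] [DecidableEq K] (M : Q → Instr Q K Γ)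
    (c d : Cf Q K Γ) (h : stp M c = some d) :
    ∑ k, ((c.2 k).length + 1) ≤ ∑ k, ((d.2 k).length + 1) + 1 := by
  unfold stp at h
  split at h
  · cases h
    exact Nat.le_succ _
  · rename_i k a q _
    cases h
    have := sum_update (fun s : List Γ => s.length + 1) c.2 k (a :: c.2 k)
    simp only [List.length_cons] at this
    show _ ≤ ∑ j, ((Function.update c.2 k (a :: c.2 k) j).length + 1) + 1
    omega
  · cases h
    exact Nat.le_succ _
  · rename_i k f _
    cases h
    have := sum_update (fun s : List Γ => s.length + 1) c.2 k (c.2 k).tail
    simp only [List.length_tail] at this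
    show _ ≤ ∑ j, ((Function.update c.2 k (c.2 k).tail j).length + 1) + 1
    omega
  · cases h

private lemma runs_sz {Q K Γ : Type} [Fintype K] [DecidableEq K] (M : Q → Instr Q K Γ) (n : ℕ) :
    ∀ (c d : Cf Q K Γ), Runs M n c d →
    ∑ k, ((c.2 k).length + 1) ≤ ∑ k, ((d.2 k).length + 1) + n := by
  induction n with
  | zero =>
    intro c d h
    have h1 : c = d := h
    rw [h1]
    exact le_rfl
  | succ n ih =>
    rintro c d ⟨e, h1, h2⟩
    have h3 := stp_sz M c e h1
    have h4 := ih e d h2
    omega

/-! ## The start word -/

private lemma dec_sw {Q K Γ : Type} [DecidableEq K] (k : K) (s : List Γ)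
    (S : K → Option (List Γ)) (h : S k = none) :
    dec (sw k s) (.build S : DS Q K Γ) = .build (Function.update S k (some s)) := by
  unfold sw
  rw [dec_append]
  have e : dec [Lt.sl k none] (.build S : DS Q K Γ) = .build (Function.update S k (some [])) := by
    simp only [dec_cons, dec_nil, act_sl_build, putS, h]
  rw [e]
  clear e
  induction s with
  | nil => rfl
  | cons a s ih =>
    rw [List.map_cons, dec_cons, ih, act_sl_build]
    simp only [putS, Function.update_self, Function.update_idem]

private lemma dec_ks {Q K Γ : Type} [DecidableEq K] (S : K → List Γ) (ks : List K)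
    (hks : ks.Nodup) :
    dec (ks.flatMap fun k => sw k (S k)) (.build (fun _ => none) : DS Q K Γ) =
      .build (fun k => if k ∈ ks then some (S k) else none) := by
  induction ks with
  | nil =>
    simp [dec_nil]
  | cons k ks ih =>
    rw [List.nodup_cons] at hks
    rw [List.flatMap_cons, dec_append, ih hks.2, dec_sw]
    · congr 1
      funext j
      by_cases hj : j = k
      · subst hj
        simp
      · rw [Function.update_of_ne hj]
        simp [hj]
    · simp [hks.1]

private lemma dec_cw {Q K Γ : Type} [DecidableEq K] (S : K → List Γ) (q : Q) (ks : List K)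
    (hks : ks.Nodup) (hks' : ∀ k, k ∈ ks) :
    dec (cw ks (q, S)) (.build (fun _ => none) : DS Q K Γ) = .run 0 q S := by
  unfold cw
  rw [dec_cons, dec_ks S ks hks, act_st_build]
  · congr 1
    funext k
    simp [hks' k]
  · intro k
    simp [hks' k]

theorem halting_model {Q K Γ : Type} [Finite Q] [Finite K] [DecidableEq K] [Finite Γ]
    (M : Q → Instr Q K Γ) (ks : List K) (hks : ks.Nodup) (hks' : ∀ k, k ∈ ks) (q0 qH : Q)
    (S0 SH : K → List Γ) (T : ℕ) (hrun : Runs M T (q0, S0) (qH, SH)) (hH : M qH = .halt)
    (k0 : K) (a0 : Γ) (hne : (SH k0).head? ≠ some a0) :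
    ∃ (A : Type) (_ : Ring A) (μ : Lt Q K Γ → A),
      RingModel (Rule M) [.st qH, .sl k0 (some a0)] (cw ks (q0, S0)) A μ := by
  classical
  have : Fintype K := Fintype.ofFinite K
  have : Finite (Lt Q K Γ) := by
    let f : Lt Q K Γ → Option (Q ⊕ (K × Option Γ)) := fun a =>
      match a with
      | .tick => none
      | .st q => some (Sum.inl q)
      | .sl k o => some (Sum.inr (k, o))
    refine Finite.of_injective f ?_
    rintro (_ | q | ⟨k, o⟩) (_ | q' | ⟨k', o'⟩) h <;> simp_all [f]
  let e0 : DS Q K Γ := .build (fun _ => none)
  refine syntactic (Rule M) _ _ {w | good M (qH, SH) T (dec w e0)}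
    (T + 1 + ∑ k, ((SH k).length + 1)) ?_ ?_ ?_ ?_
  · intro v hv
    have hv' : good M (qH, SH) T (dec v e0) := hv
    have hb : dec v e0 ≠ .bad := by
      intro hb
      rw [hb] at hv'
      exact hv'
    have h1 := sz_dec v e0 hb
    have h0 : sz e0 = 0 := by
      show ∑ k : K, osz (none : Option (List Γ)) = 0
      simp [osz]
    rcases hd : dec v e0 with _ | S | ⟨t, q, S⟩
    · exact absurd hd hb
    · rw [hd] at hv'
      exact hv'.elim
    · rw [hd] at hv' h1
      have h2 : t ≤ T ∧ Runs M (T - t) (q, S) (qH, SH) := hv'
      have h3 := runs_sz M _ _ _ h2.2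
      have h4 : t + 1 + ∑ k, ((S k).length + 1) = sz e0 + v.length := h1
      have h5 := h2.1
      simp only at h3
      omega
  · intro l r h u v
    show good M (qH, SH) T (dec _ e0) ↔ good M (qH, SH) T (dec _ e0)
    rw [dec_append, dec_append, dec_append, dec_append]
    exact good_iff hH ((eqv_rule M l r h _).dec u)
  · intro u v h
    have h' : good M (qH, SH) T (dec (u ++ ([.st qH, .sl k0 (some a0)] ++ v)) e0) := h
    rw [dec_append, dec_append] at h'
    generalize dec v e0 = d at h'
    simp only [dec_cons, dec_nil] at h'
    have key : act (.st qH) (act (.sl k0 (some a0)) d) = .bad ∨ ∃ S : K → List Γ,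
        act (.st qH) (act (.sl k0 (some a0)) d) = .run 0 qH S ∧ (S k0).head? = some a0 := by
      rcases d with _ | S | ⟨t, q, S⟩
      · left
        rfl
      · rw [act_sl_build]
        rcases e : S k0 with _ | s
        · left
          simp only [putS, e, act_bad]
        · have e2 : (putS k0 (some a0) S : DS Q K Γ) =
              .build (Function.update S k0 (some (a0 :: s))) := by
            simp only [putS, e]
          rw [e2]
          by_cases hc : ∀ j, Function.update S k0 (some (a0 :: s)) j ≠ none
          · right
            refine ⟨_, act_st_build _ _ hc, ?_⟩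
            simp
          · left
            exact act_st_build' _ _ hc
      · left
        rfl
    rcases key with key | ⟨S, key, hS⟩
    · rw [key, dec_bad] at h'
      exact h'
    · rw [key] at h'
      have key2 : ∀ u : List (Lt Q K Γ), dec u (.run 0 qH S : DS Q K Γ) = .bad ∨
          ∃ t, dec u (.run 0 qH S : DS Q K Γ) = .run t qH S := by
        intro u
        induction u with
        | nil => exact Or.inr ⟨0, rfl⟩
        | cons a u ih =>
          rcases ih with ih | ⟨t, ih⟩
          · left
            rw [dec_cons, ih, act_bad]
          · rw [dec_cons, ih]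
            rcases a with _ | q | ⟨k, o⟩
            · exact Or.inr ⟨t + 1, rfl⟩
            · exact Or.inl rfl
            · exact Or.inl rfl
      rcases key2 u with h2 | ⟨t, h2⟩
      · rw [h2] at h'
        exact h'
      · rw [h2] at h'
        have h3 : t ≤ T ∧ Runs M (T - t) (qH, S) (qH, SH) := h'
        rcases hn : T - t with _ | n
        · rw [hn] at h3
          have h4 : (qH, S) = (qH, SH) := h3.2
          have h5 : S = SH := congrArg Prod.snd h4
          exact hne (h5 ▸ hS)
        · rw [hn] at h3
          obtain ⟨_, d, h4, _⟩ := h3
          have h5 : stp M (qH, S) = none := by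
            unfold stp
            rw [hH]
          rw [h5] at h4
          cases h4
  · show good M (qH, SH) T (dec (cw ks (q0, S0)) e0)
    rw [dec_cw S0 q0 ks hks hks']
    exact ⟨Nat.zero_le _, hrun⟩

end Pool.Agent.Lib.SMO
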