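import Pool.Agent.Lib.SMO.MDefs

/-!
# Row KB. Computations as congruences.
-/

set_option autoImplicit false

namespace Pool.Agent.Lib.SMO

private lemma kb_cong {α : Type} {R : List α → List α → Prop} (a b : List α) {v w : List α}
    (h : Conn R v w) : Conn R (a ++ (v ++ b)) (a ++ (w ++ b)) := by
  induction h with
  | refl w => exact Conn.refl _
  | step u v l r h =>
    have h1 := Conn.step (R := R) (a ++ u) (v ++ b) l r h
    simpa [List.append_assoc] using h1
  | symm _ ih => exact Conn.symm ih
  | trans _ _ ih1 ih2 => exact Conn.trans ih1 ih2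

private lemma kb_left {α : Type} {R : List α → List α → Prop} (a : List α) {v w : List α}
    (h : Conn R v w) : Conn R (a ++ v) (a ++ w) := by
  simpa using kb_cong a [] h

private lemma kb_right {α : Type} {R : List α → List α → Prop} (b : List α) {v w : List α}
    (h : Conn R v w) : Conn R (v ++ b) (w ++ b) := by
  simpa using kb_cong [] b h

private lemma kb_one {Q K Γ : Type} (M : Q → Instr Q K Γ) (j k : K) (hjk : j ≠ k) (o : Option Γ)
    (l : List (Option Γ)) :
    Conn (Rule M) (Lt.sl j o :: l.map (Lt.sl k)) (l.map (Lt.sl k) ++ [Lt.sl j o]) := by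
  induction l with
  | nil => exact Conn.refl _
  | cons p l ih =>
    have h1 := Conn.step (R := Rule M) [] (l.map (Lt.sl k)) _ _ (Rule.comm j k o p hjk)
    have h2 := kb_left [Lt.sl k p] ih
    exact Conn.trans (by simpa using h1) (by simpa using h2)

private lemma kb_two {Q K Γ : Type} (M : Q → Instr Q K Γ) (j k : K) (hjk : j ≠ k)
    (l' l : List (Option Γ)) :
    Conn (Rule M) (l'.map (Lt.sl j) ++ l.map (Lt.sl k)) (l.map (Lt.sl k) ++ l'.map (Lt.sl j)) := by
  induction l' with
  | nil => simpa using Conn.refl (R := Rule M) (l.map (Lt.sl k))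
  | cons p l' ih =>
    have h1 := kb_left [Lt.sl j p] ih
    have h2 := kb_right (l'.map (Lt.sl j)) (kb_one M j k hjk p l)
    refine Conn.trans (by simpa using h1) ?_
    simpa [List.append_assoc] using h2

private lemma kb_sw {Q K Γ : Type} (k : K) (s : List Γ) :
    (sw k s : List (Lt Q K Γ)) = (s.map some ++ [none]).map (Lt.sl k) := by
  simp [sw, Function.comp_def]

private lemma kb_flat {Q K Γ : Type} (M : Q → Instr Q K Γ) (S : K → List Γ) (k : K) (t : List Γ)
    (l : List K) (hl : k ∉ l) :
    Conn (Rule M) ((l.flatMap fun j => sw j (S j)) ++ sw k t)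
      (sw k t ++ l.flatMap fun j => sw j (S j)) := by
  induction l with
  | nil => simpa using Conn.refl (R := Rule M) (sw k t)
  | cons j l ih =>
    rw [List.mem_cons, not_or] at hl
    have h1 := kb_left (sw j (S j)) (ih hl.2)
    have h2 : Conn (Rule M) (sw j (S j) ++ sw k t) (sw k t ++ sw j (S j)) := by
      rw [kb_sw, kb_sw]
      exact kb_two M j k (Ne.symm hl.1) _ _
    have h3 := kb_right (l.flatMap fun j => sw j (S j)) h2
    rw [List.flatMap_cons]
    refine Conn.trans (by simpa [List.append_assoc] using h1) ?_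
    simpa [List.append_assoc] using h3

/-- the words of the other stacks -/
private def kbRest {Q K Γ : Type} (l r : List K) (S : K → List Γ) : List (Lt Q K Γ) :=
  (l.flatMap fun j => sw j (S j)) ++ r.flatMap fun j => sw j (S j)

private lemma kb_front {Q K Γ : Type} (M : Q → Instr Q K Γ) (k : K) (l r : List K) (hl : k ∉ l)
    (q : Q) (S : K → List Γ) :
    Conn (Rule M) (cw (l ++ k :: r) (q, S)) (Lt.st q :: (sw k (S k) ++ kbRest l r S)) := by
  have h1 := kb_cong [Lt.st q] (r.flatMap fun j => sw j (S j)) (kb_flat M S k (S k) l hl)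
  have e1 : cw (l ++ k :: r) (q, S) = [Lt.st q] ++ (((l.flatMap fun j => sw j (S j)) ++ sw k (S k)) ++
      r.flatMap fun j => sw j (S j)) := by
    simp [cw, List.append_assoc]
  have e2 : (Lt.st q :: (sw k (S k) ++ kbRest l r S) : List (Lt Q K Γ)) =
      [Lt.st q] ++ ((sw k (S k) ++ l.flatMap fun j => sw j (S j)) ++
      r.flatMap fun j => sw j (S j)) := by
    simp [kbRest, List.append_assoc]
  rw [e1, e2]
  exact h1

private lemma kb_rest {Q K Γ : Type} [DecidableEq K] (l r : List K) (k : K) (hl : k ∉ l)
    (hr : k ∉ r) (S : K → List Γ) (x : List Γ) :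
    (kbRest l r (Function.update S k x) : List (Lt Q K Γ)) = kbRest l r S := by
  have h : ∀ m : List K, k ∉ m → (m.flatMap fun j => (sw j (Function.update S k x j) :
      List (Lt Q K Γ))) = m.flatMap fun j => sw j (S j) := by
    intro m
    induction m with
    | nil => intro _; rfl
    | cons j m ih =>
      intro hm
      rw [List.mem_cons, not_or] at hm
      rw [List.flatMap_cons, List.flatMap_cons, ih hm.2, Function.update_of_ne (Ne.symm hm.1)]
  unfold kbRest
  rw [h l hl, h r hr]

private lemma kb_split {K : Type} (ks : List K) (hks : ks.Nodup) (k : K) (hk : k ∈ ks) :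
    ∃ l r, ks = l ++ k :: r ∧ k ∉ l ∧ k ∉ r := by
  obtain ⟨l, r, rfl⟩ := List.append_of_mem hk
  rw [List.nodup_append] at hks
  refine ⟨l, r, rfl, ?_, ?_⟩
  · intro h
    exact hks.2.2 k h k (by simp) rfl
  · have h := hks.2.1
    rw [List.nodup_cons] at h
    exact h.1

theorem conn_step {Q K Γ : Type} [DecidableEq K] (M : Q → Instr Q K Γ) (ks : List K)
    (hks : ks.Nodup) (hks' : ∀ k, k ∈ ks) (c d : Cf Q K Γ) (h : stp M c = some d) :
    Conn (Rule M) (cw ks c) (Lt.tick :: cw ks d) := by
  obtain ⟨q, S⟩ := c
  unfold stp at h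
  cases hM : M q with
  | jump q' =>
    simp only [hM, Option.some.injEq] at h
    subst h
    have h1 := Conn.step (R := Rule M) [] (ks.flatMap fun k => sw k (S k)) _ _ (Rule.jump q q' hM)
    simpa [cw] using h1
  | push k a q' =>
    simp only [hM, Option.some.injEq] at h
    subst h
    obtain ⟨l, r, rfl, hl, hr⟩ := kb_split ks hks k (hks' k)
    have h1 := kb_front M k l r hl q S
    have h2 := Conn.step (R := Rule M) [] (sw k (S k) ++ kbRest l r S) _ _
      (Rule.push q k a q' hM)
    have h3 := kb_left [Lt.tick]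
      (Conn.symm (kb_front M k l r hl q' (Function.update S k (a :: S k))))
    rw [kb_rest l r k hl hr, Function.update_self] at h3
    refine Conn.trans h1 (Conn.trans (by simpa using h2) ?_)
    simpa [sw] using h3
  | peek k f =>
    simp only [hM, Option.some.injEq] at h
    subst h
    obtain ⟨l, r, rfl, hl, hr⟩ := kb_split ks hks k (hks' k)
    have h1 := kb_front M k l r hl q S
    have h3 := kb_left [Lt.tick] (Conn.symm (kb_front M k l r hl (f (S k).head?) S))
    refine Conn.trans h1 (Conn.trans ?_ h3)
    cases hS : S k with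
    | nil =>
      have h2 := Conn.step (R := Rule M) [] (kbRest l r S) _ _ (Rule.peek q k f none hM)
      simpa [sw] using h2
    | cons a s =>
      have h2 := Conn.step (R := Rule M) [] (sw k s ++ kbRest l r S) _ _
        (Rule.peek q k f (some a) hM)
      simpa [sw] using h2
  | pop k f =>
    simp only [hM, Option.some.injEq] at h
    subst h
    obtain ⟨l, r, rfl, hl, hr⟩ := kb_split ks hks k (hks' k)
    have h1 := kb_front M k l r hl q S
    have h3 := kb_left [Lt.tick] (Conn.symm (kb_front M k l r hl (f (S k).head?)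
      (Function.update S k (S k).tail)))
    rw [kb_rest l r k hl hr, Function.update_self] at h3
    refine Conn.trans h1 (Conn.trans ?_ h3)
    cases hS : S k with
    | nil =>
      have h2 := Conn.step (R := Rule M) [] (kbRest l r S) _ _ (Rule.pop0 q k f hM)
      simpa [sw] using h2
    | cons a s =>
      have h2 := Conn.step (R := Rule M) [] (sw k s ++ kbRest l r S) _ _
        (Rule.pop q k f a hM)
      simpa [sw] using h2
  | halt =>
    simp [hM] at h

theorem conn_runs {Q K Γ : Type} [DecidableEq K] (M : Q → Instr Q K Γ) (ks : List K)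
    (hks : ks.Nodup) (hks' : ∀ k, k ∈ ks) (T : ℕ) (c d : Cf Q K Γ) (h : Runs M T c d) :
    Conn (Rule M) (cw ks c) (List.replicate T Lt.tick ++ cw ks d) := by
  induction T generalizing c with
  | zero =>
    have h' : c = d := h
    subst h'
    simpa using Conn.refl (R := Rule M) (cw ks c)
  | succ T ih =>
    obtain ⟨e, h1, h2⟩ := h
    have h3 := kb_left [Lt.tick] (ih e h2)
    refine Conn.trans (conn_step M ks hks hks' c e h1) ?_
    simpa [List.replicate_succ] using h3

theorem conn_halt {Q K Γ : Type} [DecidableEq K] (M : Q → Instr Q K Γ) (ks : List K)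
    (hks : ks.Nodup) (hks' : ∀ k, k ∈ ks) (T : ℕ) (c : Cf Q K Γ) (qH : Q) (SH : K → List Γ)
    (h : Runs M T c (qH, SH)) (k0 : K) (a0 : Γ) (h0 : (SH k0).head? = some a0) :
    ∃ u v, Conn (Rule M) (cw ks c) (u ++ ([.st qH, .sl k0 (some a0)] ++ v)) := by
  obtain ⟨l, r, rfl, hl, hr⟩ := kb_split ks hks k0 (hks' k0)
  obtain ⟨s, hs⟩ : ∃ s, SH k0 = a0 :: s := by
    cases hS : SH k0 with
    | nil => simp [hS] at h0
    | cons a s =>
      rw [hS] at h0
      simp only [List.head?_cons, Option.some.injEq] at h0
      exact ⟨s, by rw [h0]⟩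
  have h1 := conn_runs M (l ++ k0 :: r) hks hks' T c (qH, SH) h
  have h2 := kb_left (List.replicate T Lt.tick) (kb_front M k0 l r hl qH SH)
  refine ⟨List.replicate T Lt.tick, sw k0 s ++ kbRest l r SH, Conn.trans h1 ?_⟩
  rw [hs] at h2
  simpa [sw] using h2

end Pool.Agent.Lib.SMO
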