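import Pool.Agent.Lib.SMO.MDefs

/-!
# Row KC. A stack machine for a partial recursive function.
-/

set_option autoImplicit false

namespace Pool.Agent.Lib.SMO

open Turing Turing.PartrecToTM2

/-! ### Runs -/

private lemma runs_trans {Q K Γ : Type} [DecidableEq K] {M : Q → Instr Q K Γ} :
    ∀ {a b : ℕ} {x y z : Cf Q K Γ}, Runs M a x y → Runs M b y z → Runs M (a + b) x z
  | 0, b, x, y, z, h1, h2 => by
    have : x = y := h1
    subst this
    rwa [Nat.zero_add]
  | a + 1, b, x, y, z, ⟨d, h1, h1'⟩, h2 => by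
    rw [show a + 1 + b = (a + b) + 1 by omega]
    exact ⟨d, h1, runs_trans h1' h2⟩

/-! ### Restriction of the states -/

private def imap {Q P K Γ : Type} (r : Q → P) : Instr Q K Γ → Instr P K Γ
  | .jump q => .jump (r q)
  | .push k a q => .push k a (r q)
  | .peek k f => .peek k (fun o => r (f o))
  | .pop k f => .pop k (fun o => r (f o))
  | .halt => .halt

private lemma runs_restrict {Q K Γ : Type} [DecidableEq K] (M : Q → Instr Q K Γ) (P : Q → Prop)
    (hP : ∀ (q : Q) (S : K → List Γ) (c : Cf Q K Γ), P q → stp M (q, S) = some c → P c.1)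
    (r : Q → {q // P q}) (hr : ∀ q (h : P q), r q = ⟨q, h⟩) :
    ∀ (T : ℕ) (c d : Cf Q K Γ), P c.1 → Runs M T c d →
      Runs (fun q : {q // P q} => imap r (M q.1)) T (r c.1, c.2) (r d.1, d.2) := by
  have key : ∀ (c : Cf Q K Γ), P c.1 →
      stp (fun q : {q // P q} => imap r (M q.1)) (r c.1, c.2) =
        (stp M c).map fun d => (r d.1, d.2) := by
    rintro ⟨q, S⟩ h
    have h1 : r q = ⟨q, h⟩ := hr q h
    simp only [stp, h1]
    rcases hM : M q with q' | ⟨k, a, q'⟩ | ⟨k, f⟩ | ⟨k, f⟩ | _ <;> simp [imap]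
  intro T
  induction T with
  | zero =>
    intro c d _ h
    have : c = d := h
    subst this
    rfl
  | succ T ih =>
    rintro c d hc ⟨e, he, hd⟩
    refine ⟨(r e.1, e.2), ?_, ih e d (hP c.1 c.2 e hc he) hd⟩
    rw [key c hc, he]
    rfl

/-! ### The machine on all statements -/

private abbrev Sm : Type := TM2.Stmt (fun _ : K' => Γ') Λ' (Option Γ')

private def M0 : Sm × Option Γ' → Instr (Sm × Option Γ') K' Γ'
  | (.push k f q, v) => .push k (f v) (q, v)
  | (.peek k f q, v) => .peek k (fun o => (q, f v o))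
  | (.pop k f q, v) => .pop k (fun o => (q, f v o))
  | (.load a q, v) => .jump (q, a v)
  | (.branch p q₁ q₂, v) => .jump (if p v then q₁ else q₂, v)
  | (.goto l, v) => .jump (tr (l v), v)
  | (.halt, _) => .halt

private def cf (c : Cfg') : Cf (Sm × Option Γ') K' Γ' :=
  ((match TM2.Cfg.l c with
    | some l => (tr l : Sm)
    | none => TM2.Stmt.halt, TM2.Cfg.var c), TM2.Cfg.stk c)

private lemma sim_aux : ∀ (q : Sm) (v : Option Γ') (S : K' → List Γ'),
    ∃ T, Runs M0 T ((q, v), S) (cf (TM2.stepAux q v S)) := by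
  intro q
  induction q with
  | push k f q ih =>
    intro v S
    obtain ⟨T, hT⟩ := ih v (Function.update S k (f v :: S k))
    exact ⟨T + 1, _, rfl, hT⟩
  | peek k f q ih =>
    intro v S
    obtain ⟨T, hT⟩ := ih (f v (S k).head?) S
    exact ⟨T + 1, _, rfl, hT⟩
  | pop k f q ih =>
    intro v S
    obtain ⟨T, hT⟩ := ih (f v (S k).head?) (Function.update S k (S k).tail)
    exact ⟨T + 1, _, rfl, hT⟩
  | load a q ih =>
    intro v S
    obtain ⟨T, hT⟩ := ih (a v) S
    exact ⟨T + 1, _, rfl, hT⟩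
  | branch p q₁ q₂ ih₁ ih₂ =>
    intro v S
    by_cases h : p v
    · obtain ⟨T, hT⟩ := ih₁ v S
      refine ⟨T + 1, ((q₁, v), S), ?_, ?_⟩
      · simp [stp, M0, h]
      · simpa [TM2.stepAux, h] using hT
    · obtain ⟨T, hT⟩ := ih₂ v S
      refine ⟨T + 1, ((q₂, v), S), ?_, ?_⟩
      · simp [stp, M0, h]
      · simpa [TM2.stepAux, h] using hT
  | goto l =>
    intro v S
    exact ⟨1, _, rfl, rfl⟩
  | halt =>
    intro v S
    exact ⟨0, rfl⟩

private lemma sim {a b : Cfg'} (h : StateTransition.Reaches (TM2.step tr) a b) :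
    ∃ T, Runs M0 T (cf a) (cf b) := by
  induction h with
  | refl => exact ⟨0, rfl⟩
  | tail _ hbc ih =>
    rename_i b c _
    obtain ⟨T, hT⟩ := ih
    rcases b with ⟨l, v, S⟩
    rcases l with _ | l
    · simp at hbc
    · obtain ⟨T', hT'⟩ := sim_aux (tr l) v S
      simp only [TM2.step, Option.mem_def, Option.some.injEq] at hbc
      subst hbc
      exact ⟨T + T', runs_trans hT hT'⟩

theorem exists_machine (c : ToPartrec.Code) :
    ∃ (Q : Type) (_ : Finite Q) (M : Q → Instr Q K' Γ') (q0 qH : Q), M qH = .halt ∧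
      ∀ v w, w ∈ c.eval v → ∃ T, Runs M T (q0, K'.elim (trList v) [] [] [])
        (qH, K'.elim (trList w) [] [] []) := by
  classical
  set S := codeSupp c .halt with hS
  have hsupp := tr_supports c .halt
  let P0 : Sm → Prop := fun q => (∃ l ∈ S, q ∈ TM2.stmts₁ (tr l)) ∨ q = .halt
  let P : Sm × Option Γ' → Prop := fun p => P0 p.1
  have hsub : ∀ q q' : Sm, q' ∈ TM2.stmts₁ q → q ≠ .halt → P0 q → P0 q' := by
    rintro q q' h1 h2 (⟨l, hl, h⟩ | h)
    · exact Or.inl ⟨l, hl, TM2.stmts₁_trans h h1⟩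
    · exact absurd h h2
  have hclosed : ∀ (q : Sm × Option Γ') (St : K' → List Γ') (d : Cf (Sm × Option Γ') K' Γ'), P q →
      stp M0 (q, St) = some d → P d.1 := by
    rintro ⟨q, v⟩ St d hq h
    cases q with
    | push k f q =>
      simp only [stp, M0, Option.some.injEq] at h
      subst h
      exact hsub _ q (by simp [TM2.stmts₁, TM2.stmts₁_self]) (by simp) hq
    | peek k f q =>
      simp only [stp, M0, Option.some.injEq] at h
      subst h
      exact hsub _ q (by simp [TM2.stmts₁, TM2.stmts₁_self]) (by simp) hq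
    | pop k f q =>
      simp only [stp, M0, Option.some.injEq] at h
      subst h
      exact hsub _ q (by simp [TM2.stmts₁, TM2.stmts₁_self]) (by simp) hq
    | load a q =>
      simp only [stp, M0, Option.some.injEq] at h
      subst h
      exact hsub _ q (by simp [TM2.stmts₁, TM2.stmts₁_self]) (by simp) hq
    | branch p q₁ q₂ =>
      simp only [stp, M0, Option.some.injEq] at h
      subst h
      by_cases hp : p v
      · simp only [hp, if_true]
        exact hsub _ q₁ (by simp [TM2.stmts₁, TM2.stmts₁_self]) (by simp) hq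
      · simp only [hp]
        exact hsub _ q₂ (by simp [TM2.stmts₁, TM2.stmts₁_self]) (by simp) hq
    | goto l =>
      simp only [stp, M0, Option.some.injEq] at h
      subst h
      rcases hq with ⟨l', hl', h'⟩ | h'
      · have h3 := TM2.stmts₁_supportsStmt_mono h' (hsupp.2 _ hl')
        exact Or.inl ⟨l v, h3 v, TM2.stmts₁_self⟩
      · exact absurd h' (by simp)
    | halt =>
      simp [stp, M0] at h
  have hfin : Finite {p // P p} := by
    have h1 : {q : Sm | P0 q}.Finite := by
      have h2 : {q : Sm | P0 q} ⊆ (⋃ l ∈ S, (TM2.stmts₁ (tr l) : Set Sm)) ∪ {TM2.Stmt.halt} := by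
        rintro q (⟨l, hl, h⟩ | h)
        · exact Or.inl (Set.mem_biUnion hl h)
        · exact Or.inr h
      refine Set.Finite.subset ?_ h2
      exact (Set.Finite.biUnion S.finite_toSet fun l _ => Finset.finite_toSet _).union
        (Set.finite_singleton _)
    have h3 : {p : Sm × Option Γ' | P p}.Finite := by
      have h4 : {p : Sm × Option Γ' | P p} ⊆ {q : Sm | P0 q} ×ˢ (Set.univ : Set (Option Γ')) :=
        fun p hp => ⟨hp, trivial⟩
      exact (h1.prod Set.finite_univ).subset h4
    exact h3.to_subtype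
  have hH : P (.halt, none) := Or.inr rfl
  let r : Sm × Option Γ' → {p // P p} := fun p => if h : P p then ⟨p, h⟩ else ⟨_, hH⟩
  have hr : ∀ q (h : P q), r q = ⟨q, h⟩ := fun q h => dif_pos h
  have h0 : P (tr (trNormal c .halt), none) :=
    Or.inl ⟨trNormal c .halt, hsupp.1, TM2.stmts₁_self⟩
  refine ⟨{p // P p}, hfin, fun q => imap r (M0 q.1), r (tr (trNormal c .halt), none),
    r (.halt, none), ?_, ?_⟩
  · rw [hr _ hH]
    rfl
  · intro v w hw
    have h5 : halt w ∈ StateTransition.eval (TM2.step tr) (init c v) := by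
      rw [tr_eval]
      exact Part.mem_map _ hw
    obtain ⟨T, hT⟩ := sim (StateTransition.mem_eval.1 h5).1
    exact ⟨T, runs_restrict M0 P hclosed r hr T _ _ h0 hT⟩

end Pool.Agent.Lib.SMO
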