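import Pool.Agent.Lib.SMO.CDefs

/-!
# Row KD (90 lines). The universal function as a code; the unary input.

Recipe. `U` is partial recursive: `Nat.Partrec.Code.eval_part : Partrec₂ eval`, `Computable.ofNat`, `Computable.id`, `Partrec₂.comp`. `len N := Nat.rfind` (least `k` with `N < 2 ^ k`) or
`Nat.find`; it is partial recursive (`Partrec.rfind`) once `k ↦ 2 ^ k` is primitive recursive (`Primrec.nat_rec'`, or search `Primrec` for `pow`); or use `Nat.size` / `Nat.log2` if their `Primrec` lemma exists. So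
`g N := U (len N)` is partial recursive with `g (2 ^ n - 1) = U n`. `Nat.Partrec'.part_iff₁` turns `g` into `Nat.Partrec' (fun v : List.Vector ℕ 1 => g v.head)` and
`Turing.ToPartrec.Code.exists_code` gives the code.
`trNat_pow`: `trNat n = trNum (n : Num)`; induction: `2 ^ (n + 1) - 1 = Nat.bit true (2 ^ n - 1)`, `trNat_bit` or `trNum`/`Num.bit1` lemmas (`Num.ofNat'_bit`), `trPosNum`.
-/

set_option autoImplicit false

namespace Pool.Agent.Lib.SMO

open Turing Turing.PartrecToTM2

private theorem primrec_two_pow : Primrec fun k : ℕ => 2 ^ k := by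
  refine (Primrec.nat_rec₁ (f := fun _ x : ℕ => 2 * x) 1
    (Primrec.nat_mul.comp (Primrec.const 2) Primrec.snd)).of_eq fun n => ?_
  induction n with
  | zero => rfl
  | succ n ih =>
    rw [pow_succ, ← ih]
    exact Nat.mul_comm _ _

private def len (N : ℕ) : ℕ := Nat.findGreatest (fun k => 2 ^ k ≤ N + 1) N

private theorem primrec_len : Primrec len := by
  refine Primrec.nat_findGreatest (p := fun N k => 2 ^ k ≤ N + 1) Primrec.id ?_
  exact Primrec.nat_le.comp₂ (primrec_two_pow.comp₂ Primrec₂.right)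
    (Primrec.succ.comp₂ Primrec₂.left)

private theorem len_pow (n : ℕ) : len (2 ^ n - 1) = n := by
  have h1 : 2 ^ n - 1 + 1 = 2 ^ n := Nat.sub_add_cancel Nat.one_le_two_pow
  have h2 : n < 2 ^ n := Nat.lt_two_pow_self
  refine (Nat.findGreatest_eq_iff).2 ⟨by omega, fun _ => by rw [h1], fun m hm _ hc => ?_⟩
  rw [h1] at hc
  exact absurd (Nat.pow_lt_pow_right (by norm_num) hm) (not_lt.2 hc)

private theorem partrec_U : Partrec U := by
  have h := Nat.Partrec.Code.eval_part.comp (Computable.ofNat Nat.Partrec.Code) Computable.id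
  exact h

theorem exists_code : ∃ c : ToPartrec.Code, ∀ n, c.eval [2 ^ n - 1] = pure <$> U n := by
  have h1 : Partrec fun N => U (len N) := partrec_U.comp primrec_len.to_comp
  have h2 := Nat.Partrec'.part_iff₁.2 h1
  obtain ⟨c, hc⟩ := ToPartrec.Code.exists_code h2
  refine ⟨c, fun n => ?_⟩
  have h3 := hc ⟨[2 ^ n - 1], rfl⟩
  have h4 : List.Vector.head (⟨[2 ^ n - 1], rfl⟩ : List.Vector ℕ 1) = 2 ^ n - 1 := rfl
  rw [h4, len_pow] at h3
  exact h3

private theorem trNum_bit1 (m : Num) : trNum m.bit1 = Γ'.bit1 :: trNum m := by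
  cases m <;> rfl

theorem trNat_pow (n : ℕ) : trNat (2 ^ n - 1) = List.replicate n Γ'.bit1 := by
  induction n with
  | zero => simp
  | succ n ih =>
    have h1 : 2 ^ (n + 1) - 1 = (2 ^ n - 1) + (2 ^ n - 1) + 1 := by
      have : 0 < 2 ^ n := Nat.two_pow_pos n
      rw [pow_succ]
      omega
    rw [h1, trNat, Nat.cast_add, Nat.cast_add, Nat.cast_one, Num.bit1_of_bit1, trNum_bit1,
      List.replicate_succ, ← ih]
    rfl

theorem trList_zero_one : trList [0] = [Γ'.cons] ∧ trList [1] = [Γ'.bit1, Γ'.cons] := by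
  constructor
  · simp [trList]
  · have h := trNat_pow 1
    rw [trList, trList]
    norm_num at h
    rw [h]
    rfl

end Pool.Agent.Lib.SMO
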