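import Pool.Agent.Lib.SMO.CDefs
import Pool.Agent.Lib.SMO.KA
import Pool.Agent.Lib.SMO.KB
import Pool.Agent.Lib.SMO.KC
import Pool.Agent.Lib.SMO.KD

/-!
# Row KE. The universal monomial relations.
-/

set_option autoImplicit false

namespace Pool.Agent.Lib.SMO

open Turing Turing.PartrecToTM2

private def kf : K' → Fin 4
  | .main => 0
  | .rev => 1
  | .aux => 2
  | .stack => 3

private lemma finite_K : Finite K' := by
  refine Finite.of_injective kf ?_
  intro a b h
  cases a <;> cases b <;> first | rfl | exact absurd h (by decide)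

private def lf {Q K Γ : Type} : Lt Q K Γ → Unit ⊕ (Q ⊕ (K × Option Γ))
  | .tick => Sum.inl ()
  | .st q => Sum.inr (Sum.inl q)
  | .sl k o => Sum.inr (Sum.inr (k, o))

private lemma finite_Lt {Q K Γ : Type} [Finite Q] [Finite K] [Finite Γ] : Finite (Lt Q K Γ) := by
  refine Finite.of_injective lf ?_
  intro a b h
  cases a <;> cases b <;> simp_all [lf]

private lemma rule_len {Q K Γ : Type} {M : Q → Instr Q K Γ} {l r : List (Lt Q K Γ)}
    (h : Rule M l r) : l.length ≤ 3 ∧ r.length ≤ 3 := by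
  cases h <;> simp

private lemma cw_eq {Q : Type} (q : Q) (n : ℕ) :
    cw [K'.main, K'.rev, K'.aux, K'.stack] (q, K'.elim (trList [2 ^ n - 1]) [] [] []) =
      wn [Lt.st q] [.sl K'.main (some Γ'.cons), .sl K'.main none, .sl K'.rev none, .sl K'.aux none,
        .sl K'.stack none] (Lt.sl K'.main (some Γ'.bit1)) n := by
  simp [cw, wn, sw, trNat_pow]

theorem univ : ∃ (α : Type) (_ : Finite α) (R : List α → List α → Prop) (c0 pre post : List α) (b : α),
    {p : List α × List α | R p.1 p.2}.Finite ∧ ∀ n,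
      (0 ∈ U n → ∃ u v, Conn R (wn pre post b n) (u ++ (c0 ++ v))) ∧
      (1 ∈ U n → ∃ (A : Type) (_ : Ring A) (μ : α → A), RingModel R c0 (wn pre post b n) A μ) := by
  obtain ⟨c, hc⟩ := exists_code
  obtain ⟨Q, hQ, M, q0, qH, hH, hM⟩ := exists_machine c
  have hK : Finite K' := finite_K
  have hα : Finite (Lt Q K' Γ') := finite_Lt
  have hks : [K'.main, K'.rev, K'.aux, K'.stack].Nodup := by decide
  have hks' : ∀ k, k ∈ [K'.main, K'.rev, K'.aux, K'.stack] := by
    intro k
    cases k <;> decide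
  have hmem : ∀ n a, a ∈ U n → [a] ∈ c.eval [2 ^ n - 1] := by
    intro n a h
    rw [hc n]
    exact Part.mem_map pure h
  refine ⟨Lt Q K' Γ', hα, Rule M, [.st qH, .sl K'.main (some Γ'.cons)], [.st q0],
    [.sl K'.main (some Γ'.cons), .sl K'.main none, .sl K'.rev none, .sl K'.aux none,
        .sl K'.stack none], .sl K'.main (some Γ'.bit1), ?_, fun n => ⟨fun h => ?_, fun h => ?_⟩⟩
  · have h3 := List.finite_length_le (Lt Q K' Γ') 3
    refine (h3.prod h3).subset ?_
    rintro ⟨l, r⟩ h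
    exact ⟨(rule_len h).1, (rule_len h).2⟩
  · obtain ⟨T, hT⟩ := hM _ _ (hmem n 0 h)
    rw [← cw_eq]
    exact conn_halt M _ hks hks' T _ qH _ hT K'.main Γ'.cons (by
      rw [trList_zero_one.1]
      rfl)
  · obtain ⟨T, hT⟩ := hM _ _ (hmem n 1 h)
    rw [← cw_eq]
    exact halting_model M _ hks hks' q0 qH _ _ T hT hH K'.main Γ'.cons (by
      rw [trList_zero_one.2]
      simp)

end Pool.Agent.Lib.SMO
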