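import Pool.Agent.Lib.SMO.B1
import Pool.Agent.Lib.SMO.B2
import Pool.Agent.Lib.SMO.B3
import Pool.Agent.Lib.SMO.KE
import Pool.Agent.Lib.SMO.CC

/-!
# Assembly
-/

set_option autoImplicit false

namespace Pool.Agent.Lib.SMO

theorem main (S : Data → Prop)
    (h1 : ∀ D, Wf D → SimplyConnectedNonspin D → Even D.2.2 → S D)
    (h2 : ∀ D, Wf D → SpinCoverBelowTenEighths D → ¬ S D) : ¬ ComputablePred S := by
  rintro ⟨hd, hc⟩
  obtain ⟨α, hα, R, c0, pre, post, b, hR, hU⟩ := univ
  obtain ⟨F, hF, hFn⟩ := family R c0 pre post b hR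
  have hh : Computable fun n : ℕ => if S (F n) then (1 : ℕ) else 0 := by
    have h3 : Computable fun n : ℕ => decide (S (F n)) := hc.comp hF
    have h4 : Computable fun n : ℕ => cond (decide (S (F n))) (1 : ℕ) 0 :=
      Computable.cond h3 (Computable.const 1) (Computable.const 0)
    refine h4.of_eq fun n => ?_
    by_cases h : S (F n) <;> simp [h]
  have h5 : Nat.Partrec (fun n : ℕ => (Part.some (if S (F n) then (1 : ℕ) else 0) : Part ℕ)) := by
    have := hh.partrec
    rw [← Partrec.nat_iff]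
    exact this
  obtain ⟨c, hc'⟩ := Nat.Partrec.Code.exists_code.1 h5
  have h6 : U (Encodable.encode c) = Part.some (if S (F (Encodable.encode c)) then (1 : ℕ) else 0) := by
    unfold U
    rw [Denumerable.ofNat_encode, hc']
  obtain ⟨hw, hne, hk, hcol, hmod⟩ := hFn (Encodable.encode c)
  obtain ⟨hU0, hU1⟩ := hU (Encodable.encode c)
  by_cases hS : S (F (Encodable.encode c))
  · have h7 : 1 ∈ U (Encodable.encode c) := by
      rw [h6, if_pos hS]
      exact Part.mem_some 1
    obtain ⟨G, _, _, f, z, hs, hz⟩ := hmod (hU1 h7)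
    obtain ⟨T, hT, ρ, hρ, hsp⟩ := cover_top _ hw f z hs hz
    haveI := hρ.nonempty
    exact h2 _ hw ⟨T, hT, ρ, hρ, hsp, b2_lt _ ρ hne hk⟩ hS
  · have h7 : 0 ∈ U (Encodable.encode c) := by
      rw [h6, if_neg hS]
      exact Part.mem_some 0
    exact hS (h1 _ hw (collapse_top _ (hcol (hU0 h7))) ⟨_, by rw [hk]; ring⟩)

end Pool.Agent.Lib.SMO
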