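import Mathlib

/-!
# Steinberg words
-/

set_option autoImplicit false

namespace Pool.Agent.Lib.SMO

/-- Group words over `β`. -/
abbrev GW (β : Type) := List (β × Bool)

/-- the inverse word -/
def winv {β : Type} (w : GW β) : GW β := (w.map fun a => (a.1, !a.2)).reverse

/-- the commutator word -/
def wcom {β : Type} (v w : GW β) : GW β := v ++ w ++ winv v ++ winv w

/-- the commutator -/
def com {G : Type*} [Group G] (a b : G) : G := a * b * a⁻¹ * b⁻¹

/-- the value of a word -/
def ev {β G : Type*} [Group G] (f : β → G) (w : List (β × Bool)) : G :=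
  (w.map fun a => if a.2 then f a.1 else (f a.1)⁻¹).prod

/-- Generators `(i, j, s)` of the Steinberg group over the letters `α`; `none` is the unit letter. -/
abbrev Gen (α : Type) := Fin 6 × Fin 6 × Option α

/-- the least index different from `i` and `j` -/
def mid (i j : Fin 6) : Fin 6 :=
  if i ≠ 0 ∧ j ≠ 0 then 0 else if i ≠ 1 ∧ j ≠ 1 then 1 else 2

lemma mid_ne : ∀ i j : Fin 6, mid i j ≠ i ∧ mid i j ≠ j := by decide

/-- The element for a word of letters. -/
def X {α : Type} {G : Type*} [Group G] (f : Gen α → G) : Fin 6 → Fin 6 → List α → G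
  | i, j, [] => f (i, j, none)
  | i, j, s :: w => com (f (i, mid i j, some s)) (X f (mid i j) j w)

/-- The group word for a word of letters. -/
def XW {α : Type} : Fin 6 → Fin 6 → List α → GW (Gen α)
  | i, j, [] => [((i, j, none), true)]
  | i, j, s :: w => wcom [((i, mid i j, some s), true)] (XW (mid i j) j w)

/-- The Steinberg relations. -/
structure St {α : Type} {G : Type*} [Group G] (f : Gen α → G) : Prop where
  junk : ∀ i s, f (i, i, s) = 1
  comm : ∀ i j k l s t, j ≠ k → i ≠ l → Commute (f (i, j, s)) (f (k, l, t))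
  unitl : ∀ i j k s, i ≠ j → j ≠ k → i ≠ k → com (f (i, j, none)) (f (j, k, s)) = f (i, k, s)
  unitr : ∀ i j k s, i ≠ j → j ≠ k → i ≠ k → com (f (i, j, s)) (f (j, k, none)) = f (i, k, s)

/-- The Steinberg relators. -/
inductive StRel (α : Type) : GW (Gen α) → Prop
  | junk (i : Fin 6) (s : Option α) : StRel α [((i, i, s), true)]
  | comm (i j k l : Fin 6) (s t : Option α) (h1 : j ≠ k) (h2 : i ≠ l) :
      StRel α (wcom [((i, j, s), true)] [((k, l, t), true)])
  | unitl (i j k : Fin 6) (s : Option α) (h1 : i ≠ j) (h2 : j ≠ k) (h3 : i ≠ k) :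
      StRel α (wcom [((i, j, none), true)] [((j, k, s), true)] ++ [((i, k, s), false)])
  | unitr (i j k : Fin 6) (s : Option α) (h1 : i ≠ j) (h2 : j ≠ k) (h3 : i ≠ k) :
      StRel α (wcom [((i, j, s), true)] [((j, k, none), true)] ++ [((i, k, s), false)])

/-- The relators of the first level: monomial relations `R` and a word `c0` equal to zero. -/
inductive Rel1 {α : Type} (R : List α → List α → Prop) (c0 : List α) : GW (Gen α) → Prop
  | st (w : GW (Gen α)) (h : StRel α w) : Rel1 R c0 w
  | rule (l r : List α) (h : R l r) : Rel1 R c0 (XW 0 1 l ++ winv (XW 0 1 r))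
  | zero : Rel1 R c0 (XW 0 1 c0)

/-- The letters of the second level: the generators of the first level and their inverses, and two
projections. -/
abbrev L2 (α : Type) := (Gen α × Bool) ⊕ Bool

/-- first level words as words of letters of the second level -/
def emb {α : Type} (w : GW (Gen α)) : List (L2 α) := w.map Sum.inl

/-- `(x₀₁ x₁₀⁻¹ x₀₁)² (x₂₃ x₃₂⁻¹ x₂₃)² (x₄₅ x₅₄⁻¹ x₄₅)²` -/
def hw (β : Type) : GW (Gen β) :=
  let p : Fin 6 → Fin 6 → GW (Gen β) := fun i j =>
    [((i, j, none), true), ((j, i, none), false), ((i, j, none), true)]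
  p 0 1 ++ p 0 1 ++ (p 2 3 ++ p 2 3) ++ (p 4 5 ++ p 4 5)

/-- The fixed relators of the second level, with labels. -/
inductive Rel2 {α : Type} (R : List α → List α → Prop) (c0 : List α) :
    GW (Gen (L2 α)) × Bool → Prop
  | st (w : GW (Gen (L2 α))) (h : StRel (L2 α) w) : Rel2 R c0 (w, false)
  | inv (g : Gen α) (b : Bool) : Rel2 R c0
      (XW 0 1 [Sum.inl (g, b), Sum.inl (g, !b)] ++ winv (XW 0 1 []), false)
  | rel (w : GW (Gen α)) (h : Rel1 R c0 w) : Rel2 R c0 (XW 0 1 (emb w) ++ winv (XW 0 1 []), false)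
  | hz : Rel2 R c0 (hw (L2 α), true)

/-- The relator `a (g - 1) a + b (g - 1) b + 1`. -/
def amp {α : Type} (g : GW (Gen α)) : GW (Gen (L2 α)) :=
  XW 0 1 (Sum.inr true :: (emb g ++ [Sum.inr true])) ++ winv (XW 0 1 [Sum.inr true, Sum.inr true]) ++
    XW 0 1 (Sum.inr false :: (emb g ++ [Sum.inr false])) ++
    winv (XW 0 1 [Sum.inr false, Sum.inr false]) ++ XW 0 1 []

/-- The congruence on words generated by `R`. -/
inductive Conn {α : Type} (R : List α → List α → Prop) : List α → List α → Prop
  | refl (w : List α) : Conn R w w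
  | step (u v l r : List α) (h : R l r) : Conn R (u ++ (l ++ v)) (u ++ (r ++ v))
  | symm {v w : List α} (h : Conn R v w) : Conn R w v
  | trans {u v w : List α} (h : Conn R u v) (h' : Conn R v w) : Conn R u w

/-- A finite ring of characteristic two in which the relations hold and `w` is not zero. -/
structure RingModel {α : Type} (R : List α → List α → Prop) (c0 w : List α) (A : Type) [Ring A]
    (μ : α → A) : Prop where
  fin : Finite A
  two : (2 : A) = 0
  rule : ∀ l r, R l r → (l.map μ).prod = (r.map μ).prod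
  zero : (c0.map μ).prod = 0
  ne : (w.map μ).prod ≠ 0

end Pool.Agent.Lib.SMO
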